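import Pool.Agent.H73R2.Et.Cyc

set_option autoImplicit false
set_option linter.unusedSectionVars false
set_option linter.unusedVariables false

namespace Pool.Agent.H73R2.Et

open Finset Classical Pool.Agent.H175R2 Pool.Agent.H73R2.Iv

namespace Bfs

section lev

variable {N : Type} [Fintype N] (Γ : SimpleGraph N)

/-- closed neighbourhood of a set -/
noncomputable def nb (S : Finset N) : Finset N := univ.filter fun y => ∃ x ∈ S, x = y ∨ Γ.Adj x y

lemma mem_nb {S : Finset N} {y : N} : y ∈ nb Γ S ↔ ∃ x ∈ S, x = y ∨ Γ.Adj x y := by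
  simp [nb]

lemma card_nb {Δ : ℕ} (hΔ : ∀ x, (univ.filter fun y => Γ.Adj x y).card ≤ Δ) (S : Finset N) :
    (nb Γ S).card ≤ S.card * (1 + Δ) := by
  have h1 : nb Γ S ⊆ S.biUnion fun x => insert x (univ.filter fun y => Γ.Adj x y) := by
    intro y hy
    rw [mem_nb] at hy
    obtain ⟨x, hx, h⟩ := hy
    rw [mem_biUnion]
    refine ⟨x, hx, ?_⟩
    rw [mem_insert, mem_filter]
    rcases h with h | h
    · exact Or.inl h.symm
    · exact Or.inr ⟨mem_univ _, h⟩
  refine (card_le_card h1).trans (card_biUnion_le_card_mul _ _ _ fun x _ => ?_)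
  refine (card_insert_le _ _).trans ?_
  have := hΔ x
  omega

/-- the ball of radius four -/
noncomputable def b4 (x : N) : Finset N := nb Γ (nb Γ (nb Γ (nb Γ {x})))

lemma card_b4 {Δ : ℕ} (hΔ : ∀ x, (univ.filter fun y => Γ.Adj x y).card ≤ Δ) (x : N) :
    (b4 Γ x).card ≤ (1 + Δ) ^ 4 := by
  have h1 := card_nb Γ hΔ {x}
  have h2 := card_nb Γ hΔ (nb Γ {x})
  have h3 := card_nb Γ hΔ (nb Γ (nb Γ {x}))
  have h4 := card_nb Γ hΔ (nb Γ (nb Γ (nb Γ {x})))
  rw [card_singleton, one_mul] at h1
  unfold b4
  calc (nb Γ (nb Γ (nb Γ (nb Γ {x})))).card ≤ _ := h4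
    _ ≤ ((((1 + Δ) * (1 + Δ)) * (1 + Δ)) * (1 + Δ)) := by
        apply Nat.mul_le_mul_right
        refine h3.trans (Nat.mul_le_mul_right _ ?_)
        exact h2.trans (Nat.mul_le_mul_right _ h1)
    _ = (1 + Δ) ^ 4 := by ring

lemma b4_path {x a b c y : N} (h1 : x = a ∨ Γ.Adj x a) (h2 : a = b ∨ Γ.Adj a b)
    (h3 : b = c ∨ Γ.Adj b c) (h4 : c = y ∨ Γ.Adj c y) : y ∈ b4 Γ x := by
  unfold b4
  refine (mem_nb Γ).2 ⟨c, (mem_nb Γ).2 ⟨b, (mem_nb Γ).2 ⟨a, (mem_nb Γ).2 ⟨x, by simp, h1⟩, h2⟩, h3⟩, h4⟩

/-- properties of the level function -/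
structure Lv (root : N → N) (lev : N → ℕ) : Prop where
  adj : ∀ x y, Γ.Adj x y → root x = root y ∧ lev y ≤ lev x + 1
  down : ∀ x, lev x ≠ 0 → ∃ y, Γ.Adj x y ∧ lev y + 1 = lev x
  zero : ∀ x, lev x = 0 → root x = x

lemma exists_lv : ∃ root lev, Lv Γ root lev := by
  refine ⟨fun x => (Γ.connectedComponentMk x).out, fun x => Γ.dist (Γ.connectedComponentMk x).out x,
    ?_, ?_, ?_⟩
  · intro x y h
    have e : Γ.connectedComponentMk x = Γ.connectedComponentMk y :=
      SimpleGraph.ConnectedComponent.sound h.reachable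
    refine ⟨by rw [e], ?_⟩
    rw [← e]
    have hr : Γ.Reachable (Γ.connectedComponentMk x).out x := by
      apply SimpleGraph.ConnectedComponent.exact
      exact Quot.out_eq _
    obtain ⟨w, hw⟩ := hr.exists_walk_length_eq_dist
    rw [← hw]
    have := SimpleGraph.dist_le (w.concat h)
    rwa [SimpleGraph.Walk.length_concat] at this
  · intro x hx
    have hr : Γ.Reachable (Γ.connectedComponentMk x).out x := by
      apply SimpleGraph.ConnectedComponent.exact
      exact Quot.out_eq _
    obtain ⟨w, hw⟩ := hr.exists_walk_length_eq_dist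
    have key : ∀ (r : N) (w : Γ.Walk x r), w.length = Γ.dist r x → w.length ≠ 0 →
        ∃ y, Γ.Adj x y ∧ Γ.dist r y + 1 = Γ.dist r x := by
      intro r w hw hw0
      cases w with
      | nil => simp at hw0
      | @cons _ y _ h p =>
        refine ⟨y, h, ?_⟩
        rw [SimpleGraph.Walk.length_cons] at hw
        have h1 := SimpleGraph.dist_le p.reverse
        rw [SimpleGraph.Walk.length_reverse] at h1
        have hr2 : Γ.Reachable r y := ⟨p.reverse⟩
        obtain ⟨w', hw'⟩ := hr2.exists_walk_length_eq_dist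
        have h2 := SimpleGraph.dist_le (w'.concat h.symm)
        rw [SimpleGraph.Walk.length_concat] at h2
        omega
    obtain ⟨y, hy, hy2⟩ := key _ w.reverse (by rw [SimpleGraph.Walk.length_reverse, hw])
      (by rw [SimpleGraph.Walk.length_reverse, hw]; exact hx)
    refine ⟨y, hy, ?_⟩
    have e : Γ.connectedComponentMk x = Γ.connectedComponentMk y :=
      SimpleGraph.ConnectedComponent.sound hy.reachable
    have hy3 : Γ.dist (Γ.connectedComponentMk y).out y + 1 =
        Γ.dist (Γ.connectedComponentMk x).out x := by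
      rw [← e]; exact hy2
    exact hy3
  · intro x hx
    have hr : Γ.Reachable (Γ.connectedComponentMk x).out x := by
      apply SimpleGraph.ConnectedComponent.exact
      exact Quot.out_eq _
    exact hr.dist_eq_zero_iff.1 hx

variable {Γ} {root : N → N} {lev : N → ℕ}

lemma Lv.root_eq (hL : Lv Γ root lev) {D : Finset N} (hD : Cn Γ D) {u v : N} (hu : u ∈ D)
    (hv : v ∈ D) : root u = root v := by
  by_contra hne
  obtain ⟨x, hx, y, hy, hxy⟩ := hD.2 (D.filter fun z => root z = root u) (filter_subset _ _)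
    ⟨u, by simp [hu]⟩ ⟨v, by simp [hv, Ne.symm hne]⟩
  have := (hL.adj x y hxy).1
  simp only [mem_filter, mem_sdiff, not_and] at hx hy
  exact hy.2 hy.1 (this ▸ hx.2)

lemma Lv.lev_root (hL : Lv Γ root lev) (x : N) : lev (root x) = 0 ∧ root (root x) = root x := by
  have key : ∀ n x, lev x = n → lev (root x) = 0 ∧ root (root x) = root x := by
    intro n
    induction n with
    | zero =>
      intro x hx
      have := hL.zero x hx
      rw [this, this]; exact ⟨hx, rfl⟩
    | succ n ih =>
      intro x hx
      obtain ⟨y, hy, hy2⟩ := hL.down x (by omega)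
      have h1 := ih y (by omega)
      rw [(hL.adj x y hy).1]
      exact h1
  exact key _ x rfl

/-- the lower part of a component is connected -/
lemma Lv.cn_low (hL : Lv Γ root lev) (r : N) (hr : root r = r) (hr0 : lev r = 0) (j : ℕ) :
    Cn Γ (univ.filter fun z => root z = r ∧ lev z ≤ j) := by
  set T := univ.filter fun z => root z = r ∧ lev z ≤ j with hT
  have hrT : r ∈ T := by simp [hT, hr, hr0]
  apply cn_of_cpt_eq hrT
  apply subset_antisymm cpt_subset
  have key : ∀ n z, lev z = n → z ∈ T → z ∈ cpt Γ T r := by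
    intro n
    induction n with
    | zero =>
      intro z hz hzT
      have h1 := hL.zero z hz
      simp only [hT, mem_filter] at hzT
      rw [← h1, hzT.2.1]
      exact mem_cpt_self hrT
    | succ n ih =>
      intro z hz hzT
      obtain ⟨y, hy, hy2⟩ := hL.down z (by omega)
      have hzT' := hzT
      simp only [hT, mem_filter] at hzT'
      have hyT : y ∈ T := by
        simp only [hT, mem_filter]
        refine ⟨mem_univ _, ?_, by omega⟩
        rw [← (hL.adj z y hy).1]; exact hzT'.2.1
      have h1 := ih y (by omega) hyT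
      exact subset_cpt_of_tc hrT (C := {z}) (by simpa using hzT) (Cn.singleton z)
        ⟨z, by simp, y, h1, hy⟩ (by simp)
  exact fun z hz => key _ z rfl hz

lemma Lv.close (hL : Lv Γ root lev)
    (hc : ∀ n, 5 ≤ n → ¬ (SimpleGraph.cycleGraph n).IsIndContained Γ)
    {D : Finset N} (hD : Cn Γ D) {i : ℕ} (hi : ∀ z ∈ D, i ≤ lev z) {u v : N} (hu : u ∈ D)
    (hv : v ∈ D) (hui : lev u = i) (hvi : lev v = i) : v ∈ b4 Γ u := by
  have hruv := hL.root_eq hD hu hv
  by_cases h0 : i = 0
  · have h1 := hL.zero u (by omega)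
    have h2 := hL.zero v (by omega)
    have : u = v := by rw [← h1, ← h2, hruv]
    exact b4_path Γ (Or.inl rfl) (Or.inl rfl) (Or.inl rfl) (Or.inl this)
  · obtain ⟨x, hux, hx⟩ := hL.down u (by omega)
    obtain ⟨y, hvy, hy⟩ := hL.down v (by omega)
    by_cases hxy : x = y
    · subst hxy
      exact b4_path Γ (Or.inr hux) (Or.inr hvy.symm) (Or.inl rfl) (Or.inl rfl)
    by_cases hadj : Γ.Adj x y
    · exact b4_path Γ (Or.inr hux) (Or.inr hadj) (Or.inr hvy.symm) (Or.inl rfl)
    have hrx := (hL.adj u x hux).1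
    have hry := (hL.adj v y hvy).1
    have hlx : lev x ≠ 0 := by
      intro h
      apply hxy
      rw [← hL.zero x h, ← hL.zero y (by omega), ← hrx, ← hry, hruv]
    obtain ⟨x', hxx', hx'⟩ := hL.down x hlx
    obtain ⟨y', hyy', hy'⟩ := hL.down y (by omega)
    have hr0 := hL.lev_root u
    have hT := hL.cn_low (root u) hr0.2 hr0.1 (i - 2)
    by_contra hcon
    have hno : ¬ ∃ p ∈ D, Γ.Adj x p ∧ Γ.Adj y p := by
      rintro ⟨p, _, h1, h2⟩
      exact hcon (b4_path Γ (Or.inr hux) (Or.inr h1) (Or.inr h2.symm) (Or.inr hvy.symm))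
    obtain ⟨n, hn, hcyc⟩ := cyc Γ x y hxy hadj D (univ.filter fun z => root z = root u ∧ lev z ≤ i - 2)
      hD hT (fun h => by have := hi x h; omega) (fun h => by have := hi y h; omega)
      (fun h => by simp only [mem_filter] at h; omega) (fun h => by simp only [mem_filter] at h; omega)
      (by
        rw [Finset.disjoint_left]
        intro z hz hz'
        simp only [mem_filter] at hz'
        have := hi z hz
        omega)
      (by
        intro a ha b hb hab
        simp only [mem_filter] at hb
        have h1 := hi a ha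
        have h2 := (hL.adj b a hab.symm).2
        omega)
      ⟨u, hu, hux.symm⟩ ⟨v, hv, hvy.symm⟩
      ⟨x', by
        simp only [mem_filter]
        refine ⟨mem_univ _, ?_, by omega⟩
        rw [← (hL.adj x x' hxx').1, ← hrx], hxx'⟩
      ⟨y', by
        simp only [mem_filter]
        refine ⟨mem_univ _, ?_, by omega⟩
        rw [← (hL.adj y y' hyy').1, ← hry, hruv], hyy'⟩ hno
    exact hc n hn hcyc

lemma Lv.card_bot (hL : Lv Γ root lev) {Δ : ℕ}
    (hΔ : ∀ x, (univ.filter fun y => Γ.Adj x y).card ≤ Δ)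
    (hc : ∀ n, 5 ≤ n → ¬ (SimpleGraph.cycleGraph n).IsIndContained Γ)
    {D : Finset N} (hD : Cn Γ D) {i : ℕ} (hi : ∀ z ∈ D, i ≤ lev z) :
    (D.filter fun z => lev z = i).card ≤ (1 + Δ) ^ 4 := by
  by_cases hne : (D.filter fun z => lev z = i).Nonempty
  · obtain ⟨u, hu⟩ := hne
    rw [mem_filter] at hu
    refine (card_le_card ?_).trans (card_b4 Γ hΔ u)
    intro v hv
    rw [mem_filter] at hv
    exact hL.close hc hD hi hu.1 hv.1 hu.2 hv.2
  · rw [not_nonempty_iff_eq_empty] at hne
    rw [hne, card_empty]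
    exact Nat.zero_le _

end lev

section main

variable {V N : Type} [Fintype V] [Fintype N] {G : SimpleGraph V} {Γ : SimpleGraph N} {ν : V → N}
  {un : N → N} {K0 : ℕ}

/-- vertices whose unit is contained in `D` -/
noncomputable def VV (ν : V → N) (un : N → N) (D : Finset N) : Finset V :=
  univ.filter fun v => ∀ z, un z = un (ν v) → z ∈ D

lemma mem_VV {D : Finset N} {v : V} : v ∈ VV ν un D ↔ ∀ z, un z = un (ν v) → z ∈ D := by
  simp [VV]

lemma node_mem {D : Finset N} {v : V} (h : v ∈ VV ν un D) : ν v ∈ D := mem_VV.1 h _ rfl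

lemma VV_mono {D D' : Finset N} (h : D ⊆ D') : VV ν un D ⊆ VV ν un D' := fun v hv =>
  mem_VV.2 fun z hz => h (mem_VV.1 hv z hz)

/-- a union of components of `L` closed under adjacency -/
lemma closed_adj {L S : Finset N} (hS : ∀ x ∈ S, cpt Γ L x ⊆ S) (hSL : S ⊆ L) {x y : N}
    (hx : x ∈ S) (hy : y ∈ L) (hxy : Γ.Adj x y) : y ∈ S := by
  by_contra hn
  exact not_adj_cpt (hSL hx) (mem_cpt_self (hSL hx)) hy (fun h => hn (hS x hx h)) hxy

lemma dt0_closed (hun : ∀ x y, x ≠ y → un x = un y → Γ.Adj x y)
    (L Q : Finset N) (hQ : Q ⊆ L)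
    (hc : ∀ x ∈ Q, DT0 G K0 (VV ν un (cpt Γ L x)))
    (ht : ∀ S ⊆ Q, (∀ x ∈ S, cpt Γ L x ⊆ S) → tr G (VV ν un S) (univ \ VV ν un S) ≤ K0) :
    ∀ S ⊆ Q, (∀ x ∈ S, cpt Γ L x ⊆ S) → DT0 G K0 (VV ν un S) := by
  have key : ∀ n : ℕ, ∀ S ⊆ Q, S.card ≤ n → (∀ x ∈ S, cpt Γ L x ⊆ S) → DT0 G K0 (VV ν un S) := by
    intro n
    induction n with
    | zero =>
      intro S _ hcard _
      rw [Nat.le_zero, card_eq_zero] at hcard
      left
      subst hcard
      ext v
      simp only [notMem_empty, iff_false]
      intro h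
      exact absurd (node_mem h) (notMem_empty _)
    | succ n ih =>
      intro S hS hcard hcl
      by_cases hne : S.Nonempty
      · obtain ⟨x, hx⟩ := hne
        have hxL : x ∈ L := hQ (hS hx)
        have hcl2 : ∀ y ∈ S \ cpt Γ L x, cpt Γ L y ⊆ S \ cpt Γ L x := by
          intro y hy z hz
          obtain ⟨hyS, hyc⟩ := mem_sdiff.1 hy
          refine mem_sdiff.2 ⟨hcl y hyS hz, fun hz' => hyc ?_⟩
          have e1 := cpt_eq_of_mem (hQ (hS hyS)) hz
          have e2 := cpt_eq_of_mem hxL hz'
          rw [← e2, e1]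
          exact mem_cpt_self (hQ (hS hyS))
        have hlt : (S \ cpt Γ L x).card < S.card := card_lt_card (by
          refine ⟨sdiff_subset, fun h' => ?_⟩
          exact (mem_sdiff.1 (h' hx)).2 (mem_cpt_self hxL))
        have h2 := ih (S \ cpt Γ L x) (sdiff_subset.trans hS) (by omega) hcl2
        have e : VV ν un S = VV ν un (cpt Γ L x) ∪ VV ν un (S \ cpt Γ L x) := by
          apply subset_antisymm
          · intro v hv
            rw [mem_union]
            by_cases h : ν v ∈ cpt Γ L x
            · left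
              rw [mem_VV]
              intro z hz
              by_cases hzv : z = ν v
              · rw [hzv]; exact h
              · by_contra hzn
                exact not_adj_cpt hxL h (hQ (hS (mem_VV.1 hv z hz))) hzn
                  (hun z (ν v) hzv hz).symm
            · right
              rw [mem_VV]
              intro z hz
              have hzS := mem_VV.1 hv z hz
              refine mem_sdiff.2 ⟨hzS, fun hzc => ?_⟩
              by_cases hzv : z = ν v
              · rw [hzv] at hzc; exact h hzc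
              · exact not_adj_cpt hxL hzc (hQ (hS (node_mem hv))) h (hun z (ν v) hzv hz)
          · exact union_subset (VV_mono (hcl x hx)) (VV_mono sdiff_subset)
        rw [e]
        refine DT0.union ?_ (hc x (hS hx)) h2 ?_
        · rw [Finset.disjoint_left]
          intro v hv hv'
          exact (mem_sdiff.1 (node_mem hv')).2 (node_mem hv)
        · rw [← e]
          exact ht S hS hcl
      · rw [not_nonempty_iff_eq_empty] at hne
        exact ih S hS (by rw [hne]; simp) hcl
  exact fun S hS hcl => key S.card S hS le_rfl hcl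

lemma card_fib (hu2 : ∀ x y z, un x = un y → un y = un z → x = y ∨ y = z ∨ x = z) (p : N) :
    (univ.filter fun z => un z = p).card ≤ 2 := by
  by_contra hcon
  push Not at hcon
  obtain ⟨a, ha, b, hb, c, hc, h1, h2, h3⟩ := Finset.two_lt_card.1 hcon
  simp only [mem_filter, mem_univ, true_and] at ha hb hc
  rcases hu2 a b c (by rw [ha, hb]) (by rw [hb, hc]) with h | h | h
  · exact h1 h
  · exact h3 h
  · exact h2 h

lemma step_claim {root : N → N} {lev : N → ℕ} (hL : Lv Γ root lev) {Δ : ℕ}
    (hK : 2 ^ (2 * (1 + Δ) ^ 4) + 2 * (1 + Δ) ^ 4 ≤ K0)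
    (hG : ∀ v v', un (ν v) ≠ un (ν v') → (G.Adj v v' ↔ Γ.Adj (ν v) (ν v')))
    (hfib : ∀ u, DT0 G K0 (univ.filter fun v => un (ν v) = u))
    (hun : ∀ x y, x ≠ y → un x = un y → Γ.Adj x y)
    (hu2 : ∀ x y z, un x = un y → un y = un z → x = y ∨ y = z ∨ x = z)
    (hΔ : ∀ x, (univ.filter fun y => Γ.Adj x y).card ≤ Δ)
    (hc : ∀ n, 5 ≤ n → ¬ (SimpleGraph.cycleGraph n).IsIndContained Γ) (i : ℕ)
    (ih : ∀ x, i + 1 ≤ lev x → DT0 G K0 (VV ν un (cpt Γ (univ.filter fun z => i + 1 ≤ lev z) x)))
    (x : N) (hx : i ≤ lev x) :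
    DT0 G K0 (VV ν un (cpt Γ (univ.filter fun z => i ≤ lev z) x)) := by
  set β := (1 + Δ) ^ 4 with hβ
  set L0 := univ.filter fun z => i ≤ lev z with hL0
  set L1 := univ.filter fun z => i + 1 ≤ lev z with hL1
  have hxL : x ∈ L0 := by simp [hL0, hx]
  set D := cpt Γ L0 x with hD
  have hDc : Cn Γ D := cn_cpt hxL
  have hDlev : ∀ z ∈ D, i ≤ lev z := by
    intro z hz
    have := cpt_subset hz
    simpa [hL0] using this
  set B := D.filter fun z => lev z = i with hB
  have hBc : B.card ≤ β := hL.card_bot hΔ hc hDc hDlev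
  set D' := D.filter fun z => i + 1 ≤ lev z with hD'
  have hD'L : D' ⊆ L1 := by
    intro z hz
    simp only [hD', mem_filter] at hz
    simp only [hL1, mem_filter, mem_univ, true_and]
    exact hz.2
  have hL10 : L1 ⊆ L0 := by
    intro z hz
    simp only [hL1, hL0, mem_filter, mem_univ, true_and] at hz ⊢
    omega
  have hDadj : ∀ y ∈ D, ∀ z, Γ.Adj y z → i ≤ lev z → z ∈ D := by
    intro y hy z hyz hz
    by_contra hn
    exact not_adj_cpt hxL hy (by simp [hL0, hz]) hn hyz
  have hD'cl : ∀ y ∈ D', cpt Γ L1 y ⊆ D' := by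
    intro y hy z hz
    have hyL := hD'L hy
    have h1 : cpt Γ L1 y ⊆ D := by
      apply subset_cpt_of_inter hxL (cpt_subset.trans hL10) (cn_cpt hyL)
      refine ⟨y, mem_inter.2 ⟨mem_cpt_self hyL, ?_⟩⟩
      simp only [hD', mem_filter] at hy
      exact hy.1
    simp only [hD', mem_filter]
    refine ⟨h1 hz, ?_⟩
    have := cpt_subset hz
    simpa [hL1] using this
  set O := univ.filter fun z => ∃ b ∈ B, un z = un b with hO
  have hOc : O.card ≤ 2 * β := by
    have h1 : O ⊆ B.biUnion fun b => univ.filter fun z => un z = un b := by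
      intro z hz
      simp only [hO, mem_filter, mem_univ, true_and] at hz
      simpa [mem_biUnion] using hz
    have h2 := (card_le_card h1).trans (card_biUnion_le_card_mul _ _ 2 fun b _ => card_fib hu2 _)
    omega
  have hunit : ∀ (S : Finset N) (v w : V), v ∈ VV ν un S → w ∉ VV ν un S → un (ν v) ≠ un (ν w) := by
    intro S v w hv hw h
    apply hw
    rw [mem_VV] at hv ⊢
    intro z hz
    exact hv z (by rw [hz, h])
  -- traces of unions of components
  have htr : ∀ S ⊆ D', (∀ y ∈ S, cpt Γ L1 y ⊆ S) →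
      tr G (VV ν un S) (univ \ VV ν un S) ≤ 2 ^ (2 * β) := by
    intro S hS hcl
    refine (tr_le_of_label O.powerset (fun v => O.filter fun z => Γ.Adj (ν v) z)
      (fun v _ => mem_powerset.2 (filter_subset _ _)) ?_).trans (by
        rw [card_powerset]; exact Nat.pow_le_pow_right (by norm_num) hOc)
    have half : ∀ v ∈ VV ν un S, ∀ v' ∈ VV ν un S,
        (O.filter fun z => Γ.Adj (ν v) z) = (O.filter fun z => Γ.Adj (ν v') z) →
        ∀ w ∈ univ \ VV ν un S, G.Adj v w → G.Adj v' w := by
      intro v hv v' hv' he w hw hvw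
      have hw' : w ∉ VV ν un S := (mem_sdiff.1 hw).2
      have hne := hunit S v w hv hw'
      have hne' := hunit S v' w hv' hw'
      rw [hG v' w hne']
      rw [hG v w hne] at hvw
      suffices hwO : ν w ∈ O by
        have : ν w ∈ O.filter fun z => Γ.Adj (ν v) z := mem_filter.2 ⟨hwO, hvw⟩
        rw [he] at this
        exact (mem_filter.1 this).2
      have hvS := node_mem hv
      have hvD' := hS hvS
      have hvD : ν v ∈ D ∧ i + 1 ≤ lev (ν v) := by simpa only [hD', mem_filter] using hvD'
      have hlw : i ≤ lev (ν w) := by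
        have := (hL.adj (ν w) (ν v) hvw.symm).2
        omega
      have hwD : ν w ∈ D := hDadj _ hvD.1 _ hvw hlw
      by_cases hwi : lev (ν w) = i
      · simp only [hO, mem_filter, mem_univ, true_and]
        exact ⟨ν w, by simp only [hB, mem_filter]; exact ⟨hwD, hwi⟩, rfl⟩
      · have hwL : ν w ∈ L1 := by
          simp only [hL1, mem_filter, mem_univ, true_and]; omega
        have hwS : ν w ∈ S := closed_adj hcl (hS.trans hD'L) hvS hwL hvw
        rw [mem_VV] at hw'
        push Not at hw'
        obtain ⟨z, hz, hzS⟩ := hw'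
        have hzne : z ≠ ν w := fun h => hzS (h ▸ hwS)
        have hzadj := hun z (ν w) hzne hz
        have hlz : i ≤ lev z := by
          have := (hL.adj z (ν w) hzadj).2
          have hw2 : i + 1 ≤ lev (ν w) := by omega
          omega
        have hzD : z ∈ D := hDadj _ hwD _ hzadj.symm hlz
        have hzi : lev z = i := by
          by_contra hzi
          have hzL : z ∈ L1 := by
            simp only [hL1, mem_filter, mem_univ, true_and]; omega
          exact hzS (closed_adj hcl (hS.trans hD'L) hwS hzL hzadj.symm)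
        simp only [hO, mem_filter, mem_univ, true_and]
        exact ⟨z, by simp only [hB, mem_filter]; exact ⟨hzD, hzi⟩, hz.symm⟩
    intro v hv v' hv' he w hw
    exact ⟨half v hv v' hv' he w hw, half v' hv' v hv he.symm w hw⟩
  have h1 : DT0 G K0 (VV ν un D') := by
    refine dt0_closed hun L1 D' hD'L ?_ ?_ D' (Subset.refl _) hD'cl
    · intro y hy
      apply ih
      simp only [hD', mem_filter] at hy
      exact hy.2
    · intro S hS hcl
      exact (htr S hS hcl).trans (by omega)
  -- adding the units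
  have h2 : ∀ P : Finset N, (∀ p ∈ P, ∃ b ∈ B, un b = p) →
      DT0 G K0 (VV ν un D' ∪ univ.filter fun v => un (ν v) ∈ P) := by
    intro P
    induction P using Finset.induction_on with
    | empty =>
      intro _
      simpa using h1
    | insert p P hp ihP =>
      intro hP
      have e : (VV ν un D' ∪ univ.filter fun v => un (ν v) ∈ insert p P) =
          (VV ν un D' ∪ univ.filter fun v => un (ν v) ∈ P) ∪ univ.filter fun v => un (ν v) = p := by
        ext v
        simp only [mem_union, mem_filter, mem_univ, true_and, mem_insert]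
        tauto
      rw [e]
      refine DT0.union ?_ (ihP fun q hq => hP q (mem_insert_of_mem hq)) (hfib p) ?_
      · rw [Finset.disjoint_left]
        intro v hv hv'
        simp only [mem_filter, mem_univ, true_and] at hv'
        rcases mem_union.1 hv with h | h
        · obtain ⟨b, hb, hbp⟩ := hP p (mem_insert_self _ _)
          have := mem_VV.1 h b (by rw [hbp, hv'])
          simp only [hD', hB, mem_filter] at this hb
          omega
        · simp only [mem_filter, mem_univ, true_and] at h
          exact hp (hv' ▸ h)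
      · rw [← e]
        refine tr_union_left.trans (le_trans (Nat.add_le_add ?_ ?_) hK)
        · exact (tr_mono_right (sdiff_subset_sdiff (Subset.refl _) subset_union_left)).trans
            (htr D' (Subset.refl _) hD'cl)
        · refine (tr_le_of_label O ν ?_ ?_).trans hOc
          · intro v hv
            simp only [mem_filter, mem_univ, true_and] at hv
            obtain ⟨b, hb, hbp⟩ := hP _ hv
            simp only [hO, mem_filter, mem_univ, true_and]
            exact ⟨b, hb, hbp.symm⟩
          · intro v hv v' hv' he w hw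
            simp only [mem_filter, mem_univ, true_and] at hv hv'
            have hne : un (ν v) ≠ un (ν w) := by
              intro h
              apply (mem_sdiff.1 hw).2
              rw [mem_union]
              right
              simp only [mem_filter, mem_univ, true_and]
              rw [← h]; exact hv
            rw [hG v w hne, hG v' w (by rw [← he]; exact hne), he]
  have h3 := h2 ((B.filter fun b => ∀ z, un z = un b → z ∈ D).image un) (by
    intro p hp
    rw [mem_image] at hp
    obtain ⟨b, hb, rfl⟩ := hp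
    exact ⟨b, (mem_filter.1 hb).1, rfl⟩)
  have e : VV ν un D = VV ν un D' ∪
      univ.filter fun v => un (ν v) ∈ (B.filter fun b => ∀ z, un z = un b → z ∈ D).image un := by
    apply subset_antisymm
    · intro v hv
      rw [mem_union]
      by_cases h : v ∈ VV ν un D'
      · exact Or.inl h
      · right
        rw [mem_VV] at h hv
        push Not at h
        obtain ⟨z, hz, hzD'⟩ := h
        have hzD := hv z hz
        simp only [mem_filter, mem_univ, true_and, mem_image]
        refine ⟨z, ⟨?_, fun y hy => hv y (by rw [hy, hz])⟩, hz⟩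
        simp only [hB, hD', mem_filter, not_and, not_le] at hzD' ⊢
        have h1 := hzD' hzD
        have h2 := hDlev z hzD
        exact ⟨hzD, by omega⟩
    · apply union_subset
      · exact VV_mono (filter_subset _ _)
      · intro v hv
        simp only [mem_filter, mem_univ, true_and, mem_image] at hv
        obtain ⟨b, ⟨_, hb⟩, hbv⟩ := hv
        rw [mem_VV]
        intro z hz
        exact hb z (by rw [hz, hbv])
  rw [e]
  exact h3

end main

end Bfs

open Bfs in
theorem bfs (Δ : ℕ) : ∃ K, ∀ (V N : Type) [Fintype V] [Fintype N] (G : SimpleGraph V)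
    (Γ : SimpleGraph N) (ν : V → N) (un : N → N) (K0 : ℕ), K ≤ K0 →
    (∀ v v', un (ν v) ≠ un (ν v') → (G.Adj v v' ↔ Γ.Adj (ν v) (ν v'))) →
    (∀ u, DT0 G K0 (univ.filter fun v => un (ν v) = u)) →
    (∀ x y, x ≠ y → un x = un y → Γ.Adj x y) →
    (∀ x y z, un x = un y → un y = un z → x = y ∨ y = z ∨ x = z) →
    (∀ x, (univ.filter fun y => Γ.Adj x y).card ≤ Δ) →
    (∀ n, 5 ≤ n → ¬ (SimpleGraph.cycleGraph n).IsIndContained Γ) →
    DT0 G K0 univ := by
  refine ⟨2 ^ (2 * (1 + Δ) ^ 4) + 2 * (1 + Δ) ^ 4, ?_⟩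
  intro V N _ _ G Γ ν un K0 hK hG hfib hun hu2 hΔ hc
  obtain ⟨root, lev, hL⟩ := exists_lv Γ
  have claim : ∀ n i, (∀ z, lev z < i + n) → ∀ x, i ≤ lev x →
      DT0 G K0 (VV ν un (cpt Γ (univ.filter fun z => i ≤ lev z) x)) := by
    intro n
    induction n with
    | zero =>
      intro i hi x hx
      have := hi x
      omega
    | succ n ih =>
      intro i hi x hx
      exact step_claim hL hK hG hfib hun hu2 hΔ hc i
        (ih (i + 1) (fun z => by have := hi z; omega)) x hx
  have hmax : ∀ z, lev z < 0 + (univ.sup lev + 1) := by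
    intro z
    have : lev z ≤ univ.sup lev := le_sup (mem_univ z)
    omega
  have h0 := claim _ 0 hmax
  have e0 : (univ.filter fun z => 0 ≤ lev z) = (univ : Finset N) := by
    ext z; simp
  rw [e0] at h0
  have h1 := dt0_closed (G := G) (Γ := Γ) (ν := ν) (un := un) (K0 := K0) hun univ univ
    (Subset.refl _) (fun x _ => h0 x (Nat.zero_le _)) ?_ univ (Subset.refl _)
    (fun _ _ => subset_univ _)
  · have e1 : VV ν un (univ : Finset N) = (univ : Finset V) := by
      ext v; simp [mem_VV]
    rwa [e1] at h1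
  · intro S _ hcl
    have hpos : 1 ≤ K0 := by
      have : 1 ≤ 2 ^ (2 * (1 + Δ) ^ 4) := Nat.one_le_two_pow
      omega
    refine (tr_le_one ?_).trans hpos
    have hno : ∀ v ∈ VV ν un S, ∀ w ∈ univ \ VV ν un S, ¬ G.Adj v w := by
      intro v hv w hw hvw
      have hw' : w ∉ VV ν un S := (mem_sdiff.1 hw).2
      have hne : un (ν v) ≠ un (ν w) := by
        intro h
        apply hw'
        rw [mem_VV] at hv ⊢
        intro z hz
        exact hv z (by rw [hz, h])
      rw [hG v w hne] at hvw
      have hwS : ν w ∈ S := closed_adj hcl (subset_univ _) (node_mem hv) (mem_univ _) hvw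
      apply hw'
      rw [mem_VV]
      intro z hz
      by_cases hzw : z = ν w
      · rw [hzw]; exact hwS
      · exact closed_adj hcl (subset_univ _) hwS (mem_univ _) (hun z (ν w) hzw hz).symm
    intro v hv v' hv' w hw
    exact iff_of_false (hno v hv w hw) (hno v' hv' w hw)

end Pool.Agent.H73R2.Et
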