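import Pool.Agent.H73R2.Et.Defs

set_option autoImplicit false

namespace Pool.Agent.H73R2.Et

open Finset Classical

/-- Mirsky for width two: a family of finite sets without three pairwise incomparable members and
with at least `2 h` members contains a strict chain of length `h`. -/
theorem deg_chain {α : Type} (h : ℕ) : ∀ (F : Finset (Finset α)),
    (∀ A ∈ F, ∀ B ∈ F, ∀ C ∈ F, ¬ A ⊆ B → ¬ B ⊆ A → ¬ A ⊆ C → ¬ C ⊆ A → ¬ B ⊆ C → ¬ C ⊆ B → False) →
    2 * h ≤ F.card → ∃ f : ℕ → Finset α, (∀ i, i < h → f i ∈ F) ∧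
      ∀ i, i + 1 < h → f i ⊂ f (i + 1) := by
  induction h with
  | zero => intro F _ _; exact ⟨fun _ => ∅, by simp, by simp⟩
  | succ h ih =>
    intro F h3 hc
    set M := F.filter fun A => ∀ B ∈ F, B ⊆ A → B = A with hM
    have hM2 : M.card ≤ 2 := by
      by_contra hcon
      have h3c : 2 < M.card := by omega
      obtain ⟨A, B, C, hA, hB, hC, hAB, hAC, hBC⟩ := Finset.two_lt_card_iff.1 h3c
      have hA' := Finset.mem_filter.1 hA
      have hB' := Finset.mem_filter.1 hB
      have hC' := Finset.mem_filter.1 hC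
      exact h3 A hA'.1 B hB'.1 C hC'.1
        (fun h => hAB (hB'.2 A hA'.1 h)) (fun h => hAB (hA'.2 B hB'.1 h).symm)
        (fun h => hAC (hC'.2 A hA'.1 h)) (fun h => hAC (hA'.2 C hC'.1 h).symm)
        (fun h => hBC (hC'.2 B hB'.1 h)) (fun h => hBC (hB'.2 C hC'.1 h).symm)
    have hMF : M ⊆ F := Finset.filter_subset _ _
    have hF'c : 2 * h ≤ (F \ M).card := by
      have := Finset.card_sdiff_add_card_eq_card hMF
      omega
    obtain ⟨f, hf1, hf2⟩ := ih (F \ M)
      (fun A hA B hB C hC => h3 A (Finset.mem_sdiff.1 hA).1 B (Finset.mem_sdiff.1 hB).1 C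
        (Finset.mem_sdiff.1 hC).1) hF'c
    rcases Nat.eq_zero_or_pos h with h0 | hpos
    · subst h0
      obtain ⟨A, hA⟩ : F.Nonempty := by
        rw [← Finset.card_pos]; omega
      refine ⟨fun _ => A, fun i _ => hA, fun i hi => by omega⟩
    · have hf0 := Finset.mem_sdiff.1 (hf1 0 hpos)
      have : ∃ A ∈ F, A ⊂ f 0 := by
        by_contra hcon
        push Not at hcon
        apply hf0.2
        rw [hM, Finset.mem_filter]
        refine ⟨hf0.1, fun B hB hBs => ?_⟩
        by_contra hne
        exact hcon B hB (Finset.ssubset_iff_subset_ne.2 ⟨hBs, hne⟩)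
      obtain ⟨A, hA, hAs⟩ := this
      refine ⟨fun i => match i with | 0 => A | (j + 1) => f j, ?_, ?_⟩
      · intro i hi
        match i with
        | 0 => exact hA
        | (j + 1) => exact (Finset.mem_sdiff.1 (hf1 j (by omega))).1
      · intro i hi
        match i with
        | 0 => exact hAs
        | (j + 1) => exact hf2 j (by omega)

theorem deg_mono {α : Type} {h : ℕ} {f : ℕ → Finset α} (hf : ∀ i, i + 1 < h → f i ⊂ f (i + 1)) :
    ∀ i j, i ≤ j → j < h → f i ⊆ f j := by
  intro i j hij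
  induction j, hij using Nat.le_induction with
  | base => intro _; exact Finset.Subset.refl _
  | succ j hj ih =>
    intro hlt
    exact (ih (by omega)).trans (hf j hlt).subset

/-- the abstract bound -/
theorem deg_fam {α : Type} [DecidableEq α] (k N : ℕ) (X : Finset α) (T : Finset (Finset α))
    (_hsub : ∀ A ∈ T, A ⊆ X)
    (F1 : ∀ A ∈ T, ∀ B ∈ T, ¬ A ⊆ B → ¬ B ⊆ A → (A ∩ B).card < k)
    (F2 : ∀ A ∈ T, ∀ B ∈ T, ∀ C ∈ T, ¬ A ⊆ B ∪ C → ¬ B ⊆ A ∪ C → ¬ C ⊆ A ∪ B → False)
    (sep : ∀ s ∈ X, ∀ s' ∈ X, (∀ A ∈ T, s ∈ A ↔ s' ∈ A) → s = s')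
    (hch : ¬ ∃ (A : ℕ → Finset α) (x : ℕ → α), (∀ i, i < N → A i ∈ T) ∧ (∀ j, j < N → x j ∈ X) ∧
      ∀ i j, i < N → j < N → (x j ∉ A i ↔ j ≤ i)) :
    X.card ≤ 4 * k + 2 ^ (2 * N + 1) := by
  set S := T.filter fun A => A.card ≤ 2 * k with hS
  set SM := S.biUnion id with hSM
  have hSMc : SM.card ≤ 4 * k := by
    rcases S.eq_empty_or_nonempty with he | hne
    · rw [hSM, he]; simp
    · obtain ⟨⟨A, B⟩, hAB, hmax⟩ := Finset.exists_max_image (S ×ˢ S)
        (fun p => (p.1 ∪ p.2).card) (hne.product hne)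
      have hA := (Finset.mem_product.1 hAB).1
      have hB := (Finset.mem_product.1 hAB).2
      simp only at hA hB hmax
      have hle : SM ⊆ A ∪ B := by
        intro e he
        rw [hSM, Finset.mem_biUnion] at he
        obtain ⟨C, hC, heC⟩ := he
        simp only [id] at heC
        by_contra hcon
        have hAT := (Finset.mem_filter.1 hA).1
        have hBT := (Finset.mem_filter.1 hB).1
        have hCT := (Finset.mem_filter.1 hC).1
        apply F2 A hAT B hBT C hCT
        · intro hs
          have h1 := hmax (B, C) (Finset.mk_mem_product hB hC)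
          simp only at h1
          have h2 : A ∪ B ⊂ B ∪ C := by
            rw [Finset.ssubset_iff_of_subset]
            · exact ⟨e, Finset.mem_union_right _ heC, hcon⟩
            · exact Finset.union_subset hs Finset.subset_union_left
          have := Finset.card_lt_card h2
          omega
        · intro hs
          have h1 := hmax (A, C) (Finset.mk_mem_product hA hC)
          simp only at h1
          have h2 : A ∪ B ⊂ A ∪ C := by
            rw [Finset.ssubset_iff_of_subset]
            · exact ⟨e, Finset.mem_union_right _ heC, hcon⟩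
            · exact Finset.union_subset Finset.subset_union_left hs
          have := Finset.card_lt_card h2
          omega
        · intro hs
          exact hcon (hs heC)
      have h1 := Finset.card_le_card hle
      have h2 := Finset.card_union_le A B
      have h3 := (Finset.mem_filter.1 hA).2
      have h4 := (Finset.mem_filter.1 hB).2
      omega
  set X1 := X \ SM with hX1
  set LL := (T.filter fun A => 2 * k < A.card).image fun A => A ∩ X1 with hLL
  have hX1c : X1.card ≤ 2 ^ LL.card := by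
    rw [← Finset.card_powerset]
    apply Finset.card_le_card_of_injOn (fun x => LL.filter fun B => x ∈ B)
    · intro x _
      simp only [Finset.coe_powerset, Set.mem_preimage, Set.mem_powerset_iff, Finset.coe_subset]
      exact Finset.filter_subset _ _
    · intro x hx x' hx' hEq
      simp only at hEq
      have hx1 := Finset.mem_sdiff.1 (Finset.mem_coe.1 hx)
      have hx1' := Finset.mem_sdiff.1 (Finset.mem_coe.1 hx')
      apply sep x hx1.1 x' hx1'.1
      intro A hA
      by_cases hc : A.card ≤ 2 * k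
      · have hAS : A ∈ S := Finset.mem_filter.2 ⟨hA, hc⟩
        constructor
        · intro h
          exact absurd (Finset.mem_biUnion.2 ⟨A, hAS, h⟩) hx1.2
        · intro h
          exact absurd (Finset.mem_biUnion.2 ⟨A, hAS, h⟩) hx1'.2
      · have hAL : A ∩ X1 ∈ LL := by
          rw [hLL]
          exact Finset.mem_image_of_mem _ (Finset.mem_filter.2 ⟨hA, by omega⟩)
        have h1 : A ∩ X1 ∈ (LL.filter fun B => x ∈ B) ↔ A ∩ X1 ∈ (LL.filter fun B => x' ∈ B) := by
          rw [hEq]
        simp only [Finset.mem_filter, hAL, true_and, Finset.mem_inter] at h1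
        constructor
        · intro h
          exact (h1.1 ⟨h, hx⟩).1
        · intro h
          exact (h1.2 ⟨h, hx'⟩).1
  have hLLc : LL.card ≤ 2 * N + 1 := by
    by_contra hcon
    obtain ⟨f, hf1, hf2⟩ := deg_chain (N + 1) LL (by
      intro A' hA' B' hB' C' hC' h1 h2 h3 h4 h5 h6
      rw [hLL, Finset.mem_image] at hA' hB' hC'
      obtain ⟨A, hA, rfl⟩ := hA'
      obtain ⟨B, hB, rfl⟩ := hB'
      obtain ⟨C, hC, rfl⟩ := hC'
      rw [Finset.mem_filter] at hA hB hC
      have inc : ∀ P Q : Finset α, ¬ P ∩ X1 ⊆ Q ∩ X1 → ¬ P ⊆ Q :=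
        fun P Q h h' => h (Finset.inter_subset_inter_right h')
      have i1 := F1 A hA.1 B hB.1 (inc _ _ h1) (inc _ _ h2)
      have i2 := F1 A hA.1 C hC.1 (inc _ _ h3) (inc _ _ h4)
      have i3 := F1 B hB.1 C hC.1 (inc _ _ h5) (inc _ _ h6)
      have priv : ∀ P Q R : Finset α, 2 * k < P.card → (P ∩ Q).card < k → (P ∩ R).card < k →
          ¬ P ⊆ Q ∪ R := by
        intro P Q R hP hPQ hPR hs
        have e1 : P = (P ∩ Q) ∪ (P ∩ R) := by
          rw [← Finset.inter_union_distrib_left]
          exact (Finset.inter_eq_left.2 hs).symm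
        have e2 := Finset.card_union_le (P ∩ Q) (P ∩ R)
        rw [← e1] at e2
        omega
      refine F2 A hA.1 B hB.1 C hC.1 (priv A B C hA.2 i1 i2) (priv B A C hB.2 ?_ i3)
        (priv C A B hC.2 ?_ ?_)
      · rw [Finset.inter_comm]; exact i1
      · rw [Finset.inter_comm]; exact i2
      · rw [Finset.inter_comm]; exact i3) (by omega)
    have hmono := deg_mono hf2
    apply hch
    have hmem : ∀ i, ∃ A : Finset α, i < N + 1 → A ∈ T ∧ f i = A ∩ X1 := by
      intro i
      by_cases hi : i < N + 1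
      · have := hf1 i hi
        rw [hLL, Finset.mem_image] at this
        obtain ⟨A, hA, hAe⟩ := this
        exact ⟨A, fun _ => ⟨(Finset.mem_filter.1 hA).1, hAe.symm⟩⟩
      · exact ⟨∅, fun h => absurd h hi⟩
    choose AA hAA using hmem
    have hne : Nonempty α := by
      by_contra hemp
      rw [not_nonempty_iff] at hemp
      have h1 : LL ⊆ {∅} := by
        intro A _
        rw [Finset.mem_singleton]
        exact Finset.eq_empty_of_isEmpty A
      have h2 := Finset.card_le_card h1
      rw [Finset.card_singleton] at h2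
      omega
    have hx : ∀ j, ∃ x : α, j < N → x ∈ f (N - j) ∧ x ∉ f (N - 1 - j) := by
      intro j
      by_cases hj : j < N
      · have h1 := hf2 (N - 1 - j) (by omega)
        have e : N - 1 - j + 1 = N - j := by omega
        rw [e] at h1
        obtain ⟨x, hx, hx'⟩ := Finset.exists_of_ssubset h1
        exact ⟨x, fun _ => ⟨hx, hx'⟩⟩
      · exact ⟨hne.some, fun h => absurd h hj⟩
    choose xx hxx using hx
    refine ⟨fun i => AA (N - 1 - i), xx, ?_, ?_, ?_⟩
    · intro i hi
      exact (hAA _ (by omega)).1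
    · intro j hj
      have h1 := (hxx j hj).1
      rw [(hAA (N - j) (by omega)).2, Finset.mem_inter] at h1
      exact (Finset.mem_sdiff.1 h1.2).1
    · intro i j hi hj
      have h1 := hxx j hj
      have hX : xx j ∈ X1 := by
        have h2 := h1.1
        rw [(hAA (N - j) (by omega)).2, Finset.mem_inter] at h2
        exact h2.2
      have hiff : xx j ∈ AA (N - 1 - i) ↔ xx j ∈ f (N - 1 - i) := by
        rw [(hAA (N - 1 - i) (by omega)).2, Finset.mem_inter]
        exact ⟨fun h => ⟨h, hX⟩, fun h => h.1⟩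
      rw [hiff]
      constructor
      · intro h
        by_contra hlt
        exact h (hmono (N - j) (N - 1 - i) (by omega) (by omega) h1.1)
      · intro hle h
        exact h1.2 (hmono (N - 1 - i) (N - 1 - j) (by omega) (by omega) h)
  have h1 : X.card ≤ SM.card + X1.card := by
    have : X ⊆ SM ∪ X1 := by
      intro x hx
      rw [Finset.mem_union, hX1, Finset.mem_sdiff]
      tauto
    exact (Finset.card_le_card this).trans (Finset.card_union_le _ _)
  have h2 : 2 ^ LL.card ≤ 2 ^ (2 * N + 1) := Nat.pow_le_pow_right (by norm_num) hLLc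
  omega

theorem deg (k N : ℕ) : ∃ D, ∀ (L : Type) [Fintype L] (R : L → L → Prop) (W : L → Prop),
    TriG k R W → ¬ Half R N →
    (∀ y y', y ≠ y' → ¬ W y → ¬ W y' → (∃ x, R x y) → (∀ x, R x y ↔ R x y') → False) →
    ∀ c, (univ.filter fun y => R c y).card ≤ D := by
  refine ⟨3 * (4 * k + 2 ^ (2 * N + 1)), ?_⟩
  intro L _ R W hT hN htw c
  have hCl : Cl1 k R := by
    have := (hT.cls ∅ (by simp)).1
    have e : Res R ∅ = R := by
      funext u v
      simp [Res]
    rwa [e] at this
  set X := univ.filter fun y => R c y with hX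
  set Nf : L → Finset L := fun y => univ.filter fun x => R x y with hNf
  have memN : ∀ x y, x ∈ Nf y ↔ R x y := by
    intro x y; simp [hNf]
  have hfib : ∀ b ∈ X.image Nf, (X.filter fun a => Nf a = b).card ≤ 3 := by
    intro b hb
    set F := X.filter fun a => Nf a = b with hF
    have hFm : ∀ y, y ∈ F ↔ R c y ∧ Nf y = b := by
      intro y; simp [hF, hX]
    have hsame : ∀ y ∈ F, ∀ y' ∈ F, ∀ x, R x y ↔ R x y' := by
      intro y hy y' hy' x
      rw [← memN, ← memN, ((hFm y).1 hy).2, ((hFm y').1 hy').2]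
    have h1 : (F.filter fun y => ¬ W y).card ≤ 1 := by
      rw [Finset.card_le_one]
      intro y hy y' hy'
      rw [Finset.mem_filter] at hy hy'
      by_contra hne
      exact htw y y' hne hy.2 hy'.2 ⟨c, ((hFm y).1 hy.1).1⟩ (hsame y hy.1 y' hy'.1)
    have h2 : (F.filter fun y => W y).card ≤ 2 := by
      by_contra hcon
      have h3c : 2 < (F.filter fun y => W y).card := by omega
      obtain ⟨y1, y2, y3, hy1, hy2, hy3, h12, h13, h23⟩ := Finset.two_lt_card_iff.1 h3c
      rw [Finset.mem_filter] at hy1 hy2 hy3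
      have hR : ∀ y ∈ F, W y → ∀ y' ∈ F, R y y' := by
        intro y hy hW y' hy'
        rw [← hsame y hy y' hy' y]
        exact (hT.diag y).2 hW
      have hcl := (hT.cls {y1, y2, y3} (by
        intro u hu
        simp only [Finset.mem_insert, Finset.mem_singleton] at hu
        rcases hu with rfl | rfl | rfl
        · exact hy1.2
        · exact hy2.2
        · exact hy3.2)).1
      apply hcl.hex y1 y2 y3 y1 y2 y3
      · intro h; exact h.2 ⟨rfl, by simp⟩
      · exact ⟨hR y1 hy1.1 hy1.2 y2 hy2.1, fun h => h12 h.1⟩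
      · exact ⟨hR y1 hy1.1 hy1.2 y3 hy3.1, fun h => h13 h.1⟩
      · exact ⟨hR y2 hy2.1 hy2.2 y1 hy1.1, fun h => h12 h.1.symm⟩
      · intro h; exact h.2 ⟨rfl, by simp⟩
      · exact ⟨hR y2 hy2.1 hy2.2 y3 hy3.1, fun h => h23 h.1⟩
      · exact ⟨hR y3 hy3.1 hy3.2 y1 hy1.1, fun h => h13 h.1.symm⟩
      · exact ⟨hR y3 hy3.1 hy3.2 y2 hy2.1, fun h => h23 h.1.symm⟩
      · intro h; exact h.2 ⟨rfl, by simp⟩
    have h3 := Finset.card_filter_add_card_filter_not (s := F) (fun y => W y)
    omega
  have hmain : X.card ≤ 3 * (X.image Nf).card :=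
    Finset.card_le_mul_card_image X 3 hfib
  set T : L → Finset (Finset L) := fun z => (X.image Nf).filter fun S => z ∉ S with hTd
  have memT : ∀ z S, S ∈ T z ↔ S ∈ X.image Nf ∧ z ∉ S := by
    intro z S; simp [hTd]
  have rep : ∀ S ∈ X.image Nf, ∃ y, R c y ∧ ∀ z, R z y ↔ z ∈ S := by
    intro S hS
    rw [Finset.mem_image] at hS
    obtain ⟨y, hy, rfl⟩ := hS
    refine ⟨y, ?_, fun z => (memN z y).symm⟩
    simpa [hX] using hy
  have hb : (X.image Nf).card ≤ 4 * k + 2 ^ (2 * N + 1) := by
    apply deg_fam k N (X.image Nf) (univ.image T)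
    · intro A hA
      rw [Finset.mem_image] at hA
      obtain ⟨z, _, rfl⟩ := hA
      exact Finset.filter_subset _ _
    · intro A hA B hB hAB hBA
      rw [Finset.mem_image] at hA hB
      obtain ⟨z1, _, rfl⟩ := hA
      obtain ⟨z2, _, rfl⟩ := hB
      obtain ⟨S2, hS2, hS2'⟩ := Finset.not_subset.1 hAB
      obtain ⟨S1, hS1, hS1'⟩ := Finset.not_subset.1 hBA
      rw [memT] at hS1 hS1' hS2 hS2'
      obtain ⟨y1, hc1, hy1⟩ := rep S1 hS1.1
      obtain ⟨y2, hc2, hy2⟩ := rep S2 hS2.1
      have hex : ∀ S : Finset L, ∃ y, S ∈ X.image Nf → R c y ∧ ∀ z, R z y ↔ z ∈ S := by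
        intro S
        by_cases hS : S ∈ X.image Nf
        · obtain ⟨y, hy⟩ := rep S hS
          exact ⟨y, fun _ => hy⟩
        · exact ⟨c, fun h => absurd h hS⟩
      choose g hg using hex
      have hcard : ((T z1 ∩ T z2).image g).card = (T z1 ∩ T z2).card := by
        apply Finset.card_image_of_injOn
        intro S hS S' hS' hgg
        rw [Finset.mem_coe, Finset.mem_inter, memT, memT] at hS hS'
        ext z
        rw [← (hg S hS.1.1).2 z, ← (hg S' hS'.1.1).2 z, hgg]
      rw [← hcard]
      apply hCl.pat c z1 z2 y1 y2 _ hc1 hc2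
      · rw [hy1]
        by_contra hcon
        exact hS1' ⟨hS1.1, hcon⟩
      · rw [hy2]; exact hS2.2
      · rw [hy2]
        by_contra hcon
        exact hS2' ⟨hS2.1, hcon⟩
      · rw [hy1]; exact hS1.2
      · intro x hx
        rw [Finset.mem_image] at hx
        obtain ⟨S, hS, rfl⟩ := hx
        rw [Finset.mem_inter, memT, memT] at hS
        refine ⟨(hg S hS.1.1).1, ?_, ?_⟩
        · rw [(hg S hS.1.1).2]; exact hS.1.2
        · rw [(hg S hS.1.1).2]; exact hS.2.2
    · intro A hA B hB C hC h1 h2 h3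
      rw [Finset.mem_image] at hA hB hC
      obtain ⟨z1, _, rfl⟩ := hA
      obtain ⟨z2, _, rfl⟩ := hB
      obtain ⟨z3, _, rfl⟩ := hC
      obtain ⟨S1, hS1, hS1'⟩ := Finset.not_subset.1 h1
      obtain ⟨S2, hS2, hS2'⟩ := Finset.not_subset.1 h2
      obtain ⟨S3, hS3, hS3'⟩ := Finset.not_subset.1 h3
      rw [Finset.mem_union, memT, memT] at hS1' hS2' hS3'
      rw [memT] at hS1 hS2 hS3
      obtain ⟨y1, hc1, hy1⟩ := rep S1 hS1.1
      obtain ⟨y2, hc2, hy2⟩ := rep S2 hS2.1
      obtain ⟨y3, hc3, hy3⟩ := rep S3 hS3.1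
      push Not at hS1' hS2' hS3'
      apply hCl.hex z1 z2 z3 y1 y2 y3
      · rw [hy1]; exact hS1.2
      · rw [hy2]; exact hS2'.1 hS2.1
      · rw [hy3]; exact hS3'.1 hS3.1
      · rw [hy1]; exact hS1'.1 hS1.1
      · rw [hy2]; exact hS2.2
      · rw [hy3]; exact hS3'.2 hS3.1
      · rw [hy1]; exact hS1'.2 hS1.1
      · rw [hy2]; exact hS2'.2 hS2.1
      · rw [hy3]; exact hS3.2
    · intro S hS S' hS' hh
      ext z
      have h1 := hh (T z) (Finset.mem_image_of_mem _ (Finset.mem_univ z))
      rw [memT, memT] at h1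
      constructor
      · intro h
        by_contra hcon
        exact (h1.2 ⟨hS', hcon⟩).2 h
      · intro h
        by_contra hcon
        exact (h1.1 ⟨hS, hcon⟩).2 h
    · rintro ⟨A, x, hA, hx, hiff⟩
      apply hN
      have hz : ∀ i, ∃ z, i < N → T z = A i := by
        intro i
        by_cases hi : i < N
        · obtain ⟨z, _, hz⟩ := Finset.mem_image.1 (hA i hi)
          exact ⟨z, fun _ => hz⟩
        · exact ⟨c, fun h => absurd h hi⟩
      have hy : ∀ j, ∃ y, j < N → ∀ z, R z y ↔ z ∈ x j := by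
        intro j
        by_cases hj : j < N
        · obtain ⟨y, _, hy⟩ := rep (x j) (hx j hj)
          exact ⟨y, fun _ => hy⟩
        · exact ⟨c, fun h => absurd h hj⟩
      choose zz hzz using hz
      choose yy hyy using hy
      refine ⟨zz, yy, ?_⟩
      intro i j hi hj
      rw [hyy j hj, ← hiff i j hi hj, ← hzz i hi, memT]
      have := hx j hj
      tauto
  omega

end Pool.Agent.H73R2.Et
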