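import Pool.Agent.H73R2.Et.Units

set_option autoImplicit false

namespace Pool.Agent.H73R2.Et

open Finset Classical Pool.Agent.H175R2 Pool.Agent.H73R2.Iv

section aux

variable {V : Type} [Fintype V] {G : SimpleGraph V} {side : V → Bool} {K : ℕ} {f : V → V}

/-- adjacency between different units is given by the quotient relation -/
lemma adj_iff_RR (hU : Units G side K f) {a b : V} (ha : side a = true) (hb : side b = false)
    (hne : f a ≠ f b) : G.Adj a b ↔ RR G side f (f a) (f b) := by
  constructor
  · intro h
    exact ⟨a, b, rfl, rfl, ha, hb, h⟩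
  · rintro ⟨a', b', hfa, hfb, hsa, hsb, h⟩
    have h1 : G.Adj b' a' ↔ G.Adj b' a :=
      hU.bim b' a' a (by rw [hfa, hfb]; exact hne.symm) hfa (by rw [hsa, ha])
    have h2 : G.Adj a b' ↔ G.Adj a b :=
      hU.bim a b' b (by rw [hfb]; exact hne) hfb (by rw [hsb, hb])
    exact h2.1 (h1.1 h.symm).symm

lemma not_adj_same (hs : Side G side) {a b : V} (h : side a = side b) : ¬ G.Adj a b :=
  fun hab => hs a b hab h

end aux

theorem merge {V : Type} [Fintype V] (G : SimpleGraph V) (side : V → Bool) (hs : Side G side)
    (K : ℕ) (hK : 2 ≤ K) (f : V → V) (hU : Units G side K f) (CA CB : Finset V) (κ : V → ℕ)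
    (hM : Mrg (RR G side f) (WW side f) CA CB κ) :
    ∃ f' : V → V, Units G side K f' ∧ (univ.image f').card < (univ.image f).card := by
  obtain ⟨u0, hu0, u1, hu1, hne01⟩ := hM.two
  set C := CA ∪ CB with hC
  have exvA : ∀ u ∈ CA, ∃ v, f v = u ∧ side v = true := by
    intro u hu
    obtain ⟨b, a', b', h1, _, h2, _⟩ := hM.exA u hu
    exact ⟨a', h1, h2⟩
  have exvB : ∀ u ∈ CB, ∃ v, f v = u ∧ side v = false := by
    intro u hu
    obtain ⟨b, a', b', _, h1, _, h2, _⟩ := hM.exB u hu
    exact ⟨b', h1, h2⟩
  have inA : ∀ v, f v ∈ C → side v = true → f v ∈ CA := by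
    intro v hv hsv
    rcases mem_union.1 hv with h | h
    · exact h
    · obtain ⟨w, hw, hsw⟩ := exvB _ h
      exact (hM.wild (f v) ⟨v, w, rfl, hw, hsv, hsw⟩).2 h
  have inB : ∀ v, f v ∈ C → side v = false → f v ∈ CB := by
    intro v hv hsv
    rcases mem_union.1 hv with h | h
    · obtain ⟨w, hw, hsw⟩ := exvA _ h
      exact (hM.wild (f v) ⟨w, v, hw, rfl, hsw, hsv⟩).1 h
    · exact h
  have inImg : ∀ u ∈ C, u ∈ univ.image f := by
    intro u hu
    rcases mem_union.1 hu with h | h
    · obtain ⟨v, hv, _⟩ := exvA u h
      exact mem_image.2 ⟨v, mem_univ _, hv⟩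
    · obtain ⟨v, hv, _⟩ := exvB u h
      exact mem_image.2 ⟨v, mem_univ _, hv⟩
  -- the merged unit is a bimodule
  have hbi : ∀ x a a', f x ∉ C → f a ∈ C → f a' ∈ C → side a = side a' →
      (G.Adj x a ↔ G.Adj x a') := by
    intro x a a' hx ha ha' hsd
    have hxa : f x ≠ f a := fun h => hx (h ▸ ha)
    have hxa' : f x ≠ f a' := fun h => hx (h ▸ ha')
    have hxA : f x ∉ CA := fun h => hx (mem_union_left _ h)
    have hxB : f x ∉ CB := fun h => hx (mem_union_right _ h)
    by_cases hxs : side x = side a
    · have h1 := not_adj_same hs hxs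
      have h2 := not_adj_same hs (hxs.trans hsd)
      simp [h1, h2]
    · cases hsa : side a with
      | true =>
        have hsa' : side a' = true := by rw [← hsd, hsa]
        have hsx : side x = false := by
          rw [hsa] at hxs
          exact Bool.eq_false_iff.2 hxs
        rw [G.adj_comm x a, G.adj_comm x a', adj_iff_RR hU hsa hsx hxa.symm,
          adj_iff_RR hU hsa' hsx hxa'.symm]
        exact hM.homA (f x) hxB (f a) (inA a ha hsa) (f a') (inA a' ha' hsa')
      | false =>
        have hsa' : side a' = false := by rw [← hsd, hsa]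
        have hsx : side x = true := by
          rw [hsa] at hxs
          cases h : side x with
          | true => rfl
          | false => exact absurd h hxs
        rw [adj_iff_RR hU hsx hsa hxa, adj_iff_RR hU hsx hsa' hxa']
        exact hM.homB (f x) hxA (f a) (inB a ha hsa) (f a') (inB a' ha' hsa')
  -- trees for initial segments
  have htree : ∀ n : ℕ, ∀ P : Finset V, P.card = n → P ⊆ C →
      (∀ u ∈ P, ∀ v ∈ C \ P, κ u ≤ κ v) → DT0 G K (univ.filter fun v => f v ∈ P) := by
    intro n
    induction n with
    | zero =>
      intro P hP _ _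
      rw [card_eq_zero] at hP
      left
      rw [hP]
      ext v; simp
    | succ n ih =>
      intro P hP hPC hini
      have hPne : P.Nonempty := by
        rw [← card_pos]; omega
      obtain ⟨u, hu, hmax⟩ := exists_max_image P κ hPne
      have h1 := ih (P.erase u) (by rw [card_erase_of_mem hu]; omega)
        ((erase_subset _ _).trans hPC) (by
          intro w hw v hv
          rw [mem_erase] at hw
          rw [mem_sdiff, mem_erase, not_and_or, not_not] at hv
          rcases hv.2 with h | h
          · rw [h]; exact hmax w hw.2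
          · exact hini w hw.2 v (mem_sdiff.2 ⟨hv.1, h⟩))
      have h2 := hU.dt u
      have he : (univ.filter fun v => f v ∈ P) =
          (univ.filter fun v => f v ∈ P.erase u) ∪ (univ.filter fun v => f v = u) := by
        ext v
        simp only [mem_filter, mem_univ, true_and, mem_union, mem_erase]
        constructor
        · intro h
          by_cases hvu : f v = u
          · right; exact hvu
          · left; exact ⟨hvu, h⟩
        · rintro (h | h)
          · exact h.2
          · rw [h]; exact hu
      have hd : Disjoint (univ.filter fun v => f v ∈ P.erase u) (univ.filter fun v => f v = u) := by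
        rw [Finset.disjoint_left]
        intro v hv hv'
        simp only [mem_filter, mem_univ, true_and, mem_erase] at hv hv'
        exact hv.1 hv'
      have htr : tr G (univ.filter fun v => f v ∈ P) (univ \ (univ.filter fun v => f v ∈ P)) ≤ K := by
        refine (tr_le_of_label (univ : Finset Bool) side (fun _ _ => mem_univ _) ?_).trans
          (by simpa using hK)
        intro y hy y' hy' hsd z hz
        simp only [mem_filter, mem_univ, true_and, mem_sdiff] at hy hy' hz
        by_cases hzC : f z ∈ C
        · have hk1 := hini (f y) hy (f z) (mem_sdiff.2 ⟨hzC, hz⟩)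
          have hk2 := hini (f y') hy' (f z) (mem_sdiff.2 ⟨hzC, hz⟩)
          have hn1 : f y ≠ f z := fun h => hz (h ▸ hy)
          have hn2 : f y' ≠ f z := fun h => hz (h ▸ hy')
          by_cases hzs : side y = side z
          · have e1 := not_adj_same hs hzs
            have e2 := not_adj_same hs (hsd ▸ hzs)
            simp [e1, e2]
          · cases hsy : side y with
            | true =>
              have hsy' : side y' = true := by rw [← hsd, hsy]
              have hsz : side z = false := by
                rw [hsy] at hzs
                cases h : side z with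
                | true => exact absurd h.symm hzs
                | false => rfl
              rw [adj_iff_RR hU hsy hsz hn1, adj_iff_RR hU hsy' hsz hn2]
              have e1 := hM.ordBA (f y) (f z) hn1 hk1 (inA y (hPC hy) hsy) (inB z hzC hsz)
              have e2 := hM.ordBA (f y') (f z) hn2 hk2 (inA y' (hPC hy') hsy') (inB z hzC hsz)
              simp [e1, e2]
            | false =>
              have hsy' : side y' = false := by rw [← hsd, hsy]
              have hsz : side z = true := by
                rw [hsy] at hzs
                cases h : side z with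
                | true => rfl
                | false => exact absurd h.symm hzs
              rw [G.adj_comm y z, G.adj_comm y' z, adj_iff_RR hU hsz hsy hn1.symm,
                adj_iff_RR hU hsz hsy' hn2.symm]
              have e1 := hM.ordAB (f y) (f z) hn1 hk1 (inB y (hPC hy) hsy) (inA z hzC hsz)
              have e2 := hM.ordAB (f y') (f z) hn2 hk2 (inB y' (hPC hy') hsy') (inA z hzC hsz)
              simp [e1, e2]
        · rw [G.adj_comm y z, G.adj_comm y' z]
          exact hbi z y y' hzC (hPC hy) (hPC hy') hsd
      rw [he] at htr ⊢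
      exact DT0.union hd h1 h2 htr
  set f' : V → V := fun v => if f v ∈ C then u0 else f v with hf'
  have f'in : ∀ v, f v ∈ C → f' v = u0 := fun v hv => by simp only [hf', hv, if_true]
  have f'out : ∀ v, f v ∉ C → f' v = f v := fun v hv => by simp only [hf', hv, if_false]
  have f'u0 : ∀ v, f' v = u0 → f v ∈ C := by
    intro v hv
    by_contra h
    rw [f'out v h] at hv
    exact h (hv ▸ hu0)
  refine ⟨f', ⟨?_, ?_, ?_, ?_⟩, ?_⟩
  · -- bim
    intro x a a' hxa haa' hsd
    by_cases ha : f a ∈ C
    · have ha' : f a' ∈ C := f'u0 a' (by rw [← haa', f'in a ha])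
      have hx : f x ∉ C := fun h => hxa (by rw [f'in x h, f'in a ha])
      exact hbi x a a' hx ha ha' hsd
    · have ha' : f a' ∉ C := fun h => ha (f'u0 a (by rw [haa', f'in a' h]))
      rw [f'out a ha] at hxa haa'
      rw [f'out a' ha'] at haa'
      refine hU.bim x a a' (fun h => hxa ?_) haa' hsd
      rw [f'out x (by rw [h]; exact ha), h]
  · -- dt
    intro u
    by_cases hu : u = u0
    · have he : (univ.filter fun v => f' v = u) = (univ.filter fun v => f v ∈ C) := by
        ext v
        simp only [mem_filter, mem_univ, true_and]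
        rw [hu]
        exact ⟨f'u0 v, f'in v⟩
      rw [he]
      exact htree C.card C rfl (Subset.refl _) (by intro u _ v hv; simp at hv)
    · by_cases huC : u ∈ C
      · left
        ext v
        simp only [mem_filter, mem_univ, true_and, notMem_empty, iff_false]
        intro hv
        by_cases h : f v ∈ C
        · exact hu (by rw [← hv, f'in v h])
        · rw [f'out v h] at hv
          exact h (hv ▸ huC)
      · have he : (univ.filter fun v => f' v = u) = (univ.filter fun v => f v = u) := by
          ext v
          simp only [mem_filter, mem_univ, true_and]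
          constructor
          · intro hv
            by_cases h : f v ∈ C
            · exact absurd (by rw [← hv, f'in v h]) hu
            · rw [f'out v h] at hv; exact hv
          · intro hv
            rw [f'out v (by rw [hv]; exact huC), hv]
        rw [he]
        exact hU.dt u
  · -- edge
    intro a b hab hsa hsb
    by_cases ha : f a ∈ C
    · obtain ⟨α, hα, β, hβ, a', b', h1, h2, h3, h4, h5⟩ := hM.edge
      refine ⟨a', b', ?_, ?_, h3, h4, h5⟩
      · rw [f'in a ha, f'in a' (by rw [h1]; exact mem_union_left _ hα)]
      · rw [f'in a ha, f'in b' (by rw [h2]; exact mem_union_right _ hβ)]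
    · have hb : f b ∉ C := fun h => ha (f'u0 a (by rw [hab, f'in b h]))
      rw [f'out a ha, f'out b hb] at hab
      obtain ⟨a', b', h1, h2, h3, h4, h5⟩ := hU.edge a b hab hsa hsb
      refine ⟨a', b', ?_, ?_, h3, h4, h5⟩
      · rw [f'out a ha, f'out a' (by rw [h1]; exact ha), h1]
      · rw [f'out a ha, f'out b' (by rw [h2]; exact ha), h2]
  · -- nonedge
    intro a b hab hsa hsb
    by_cases ha : f a ∈ C
    · obtain ⟨α, hα, β, hβ, h1⟩ := hM.nonedge
      obtain ⟨a', ha', hsa'⟩ := exvA α hα
      obtain ⟨b', hb', hsb'⟩ := exvB β hβ
      refine ⟨a', b', ?_, ?_, hsa', hsb', ?_⟩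
      · rw [f'in a ha, f'in a' (by rw [ha']; exact mem_union_left _ hα)]
      · rw [f'in a ha, f'in b' (by rw [hb']; exact mem_union_right _ hβ)]
      · intro h
        exact h1 ⟨a', b', ha', hb', hsa', hsb', h⟩
    · have hb : f b ∉ C := fun h => ha (f'u0 a (by rw [hab, f'in b h]))
      rw [f'out a ha, f'out b hb] at hab
      obtain ⟨a', b', h1, h2, h3, h4, h5⟩ := hU.nonedge a b hab hsa hsb
      refine ⟨a', b', ?_, ?_, h3, h4, h5⟩
      · rw [f'out a ha, f'out a' (by rw [h1]; exact ha), h1]
      · rw [f'out a ha, f'out b' (by rw [h2]; exact ha), h2]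
  · -- card
    have hsub : univ.image f' ⊆ (univ.image f).erase u1 := by
      intro u hu
      obtain ⟨v, _, rfl⟩ := mem_image.1 hu
      rw [mem_erase]
      by_cases h : f v ∈ C
      · rw [f'in v h]
        exact ⟨hne01, inImg u0 hu0⟩
      · rw [f'out v h]
        exact ⟨fun he => h (he ▸ hu1), mem_image_of_mem _ (mem_univ _)⟩
    have h1 := card_le_card hsub
    have h2 := inImg u1 hu1
    rw [card_erase_of_mem h2] at h1
    have h3 := card_pos.2 ⟨u1, h2⟩
    omega

theorem mergeTwin {V : Type} [Fintype V] (G : SimpleGraph V) (side : V → Bool) (hs : Side G side)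
    (K : ℕ) (hK : 2 ≤ K) (f : V → V) (hU : Units G side K f) (y y' : V) (hne : y ≠ y')
    (hy : ¬ WW side f y) (hy' : ¬ WW side f y') (hex : ∃ x, RR G side f x y)
    (htw : ∀ x, RR G side f x y ↔ RR G side f x y') :
    ∃ f' : V → V, Units G side K f' ∧ (univ.image f').card < (univ.image f).card := by
  obtain ⟨x0, hx0⟩ := hex
  have hx0' := (htw x0).1 hx0
  have sy : ∀ v, f v = y → side v = false := by
    intro v hv
    obtain ⟨a, b, _, hb, _, hsb, _⟩ := hx0
    cases h : side v with
    | true => exact absurd ⟨v, b, hv, hb, h, hsb⟩ hy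
    | false => rfl
  have sy' : ∀ v, f v = y' → side v = false := by
    intro v hv
    obtain ⟨a, b, _, hb, _, hsb, _⟩ := hx0'
    cases h : side v with
    | true => exact absurd ⟨v, b, hv, hb, h, hsb⟩ hy'
    | false => rfl
  have sC : ∀ v, (f v = y ∨ f v = y') → side v = false := by
    rintro v (h | h)
    · exact sy v h
    · exact sy' v h
  have inImg' : y' ∈ univ.image f := by
    obtain ⟨a, b, _, hb, _⟩ := hx0'
    exact mem_image.2 ⟨b, mem_univ _, hb⟩
  have inImg : y ∈ univ.image f := by
    obtain ⟨a, b, _, hb, _⟩ := hx0
    exact mem_image.2 ⟨b, mem_univ _, hb⟩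
  have hRRy : ∀ u v, (v = y ∨ v = y') → (RR G side f u v ↔ RR G side f u y) := by
    rintro u v (h | h)
    · rw [h]
    · rw [h]; exact (htw u).symm
  have hbi : ∀ x a a', ¬ (f x = y ∨ f x = y') → (f a = y ∨ f a = y') → (f a' = y ∨ f a' = y') →
      (G.Adj x a ↔ G.Adj x a') := by
    intro x a a' hx ha ha'
    have hsa := sC a ha
    have hsa' := sC a' ha'
    have hxa : f x ≠ f a := fun h => hx (h ▸ ha)
    have hxa' : f x ≠ f a' := fun h => hx (h ▸ ha')
    cases hsx : side x with
    | false =>
      have h1 := not_adj_same hs (hsx.trans hsa.symm)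
      have h2 := not_adj_same hs (hsx.trans hsa'.symm)
      simp [h1, h2]
    | true =>
      rw [adj_iff_RR hU hsx hsa hxa, adj_iff_RR hU hsx hsa' hxa', hRRy _ _ ha, hRRy _ _ ha']
  set f' : V → V := fun v => if f v = y' then y else f v with hf'
  have f'in : ∀ v, (f v = y ∨ f v = y') → f' v = y := by
    rintro v (h | h)
    · simp only [hf', h]; simp
    · simp only [hf', h, if_true]
  have f'out : ∀ v, ¬ (f v = y ∨ f v = y') → f' v = f v := by
    intro v hv
    have : f v ≠ y' := fun h => hv (Or.inr h)
    simp only [hf', this, if_false]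
  have f'u0 : ∀ v, f' v = y → (f v = y ∨ f v = y') := by
    intro v hv
    by_contra h
    rw [f'out v h] at hv
    exact h (Or.inl hv)
  refine ⟨f', ⟨?_, ?_, ?_, ?_⟩, ?_⟩
  · -- bim
    intro x a a' hxa haa' hsd
    by_cases ha : (f a = y ∨ f a = y')
    · have ha' : (f a' = y ∨ f a' = y') := f'u0 a' (by rw [← haa', f'in a ha])
      have hx : ¬ (f x = y ∨ f x = y') := fun h => hxa (by rw [f'in x h, f'in a ha])
      exact hbi x a a' hx ha ha'
    · have ha' : ¬ (f a' = y ∨ f a' = y') := fun h => ha (f'u0 a (by rw [haa', f'in a' h]))
      rw [f'out a ha] at hxa haa'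
      rw [f'out a' ha'] at haa'
      refine hU.bim x a a' (fun h => hxa ?_) haa' hsd
      rw [f'out x (by rw [h]; exact ha), h]
  · -- dt
    intro u
    by_cases hu : u = y
    · have he : (univ.filter fun v => f' v = u) =
          (univ.filter fun v => f v = y) ∪ (univ.filter fun v => f v = y') := by
        ext v
        simp only [mem_filter, mem_univ, true_and, mem_union]
        rw [hu]
        exact ⟨f'u0 v, f'in v⟩
      have hd : Disjoint (univ.filter fun v => f v = y) (univ.filter fun v => f v = y') := by
        rw [Finset.disjoint_left]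
        intro v hv hv'
        simp only [mem_filter, mem_univ, true_and] at hv hv'
        exact hne (hv.symm.trans hv')
      rw [he]
      refine DT0.union hd (hU.dt y) (hU.dt y') ?_
      refine (tr_le_one ?_).trans (by omega)
      intro p hp p' hp' z hz
      simp only [mem_filter, mem_univ, true_and, mem_union, mem_sdiff] at hp hp' hz
      rw [G.adj_comm p z, G.adj_comm p' z]
      exact hbi z p p' hz hp hp'
    · by_cases huC : u = y'
      · left
        ext v
        simp only [mem_filter, mem_univ, true_and, notMem_empty, iff_false]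
        intro hv
        by_cases h : (f v = y ∨ f v = y')
        · exact hu (by rw [← hv, f'in v h])
        · rw [f'out v h] at hv
          exact h (Or.inr (hv.trans huC))
      · have he : (univ.filter fun v => f' v = u) = (univ.filter fun v => f v = u) := by
          ext v
          simp only [mem_filter, mem_univ, true_and]
          constructor
          · intro hv
            by_cases h : (f v = y ∨ f v = y')
            · exact absurd (by rw [← hv, f'in v h]) hu
            · rw [f'out v h] at hv; exact hv
          · intro hv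
            rw [f'out v (by rw [hv]; exact not_or.2 ⟨hu, huC⟩), hv]
        rw [he]
        exact hU.dt u
  · -- edge
    intro a b hab hsa hsb
    by_cases ha : (f a = y ∨ f a = y')
    · have := sC a ha
      rw [hsa] at this
      exact absurd this (by simp)
    · have hb : ¬ (f b = y ∨ f b = y') := fun h => ha (f'u0 a (by rw [hab, f'in b h]))
      rw [f'out a ha, f'out b hb] at hab
      obtain ⟨a', b', h1, h2, h3, h4, h5⟩ := hU.edge a b hab hsa hsb
      refine ⟨a', b', ?_, ?_, h3, h4, h5⟩
      · rw [f'out a ha, f'out a' (by rw [h1]; exact ha), h1]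
      · rw [f'out a ha, f'out b' (by rw [h2]; exact ha), h2]
  · -- nonedge
    intro a b hab hsa hsb
    by_cases ha : (f a = y ∨ f a = y')
    · have := sC a ha
      rw [hsa] at this
      exact absurd this (by simp)
    · have hb : ¬ (f b = y ∨ f b = y') := fun h => ha (f'u0 a (by rw [hab, f'in b h]))
      rw [f'out a ha, f'out b hb] at hab
      obtain ⟨a', b', h1, h2, h3, h4, h5⟩ := hU.nonedge a b hab hsa hsb
      refine ⟨a', b', ?_, ?_, h3, h4, h5⟩
      · rw [f'out a ha, f'out a' (by rw [h1]; exact ha), h1]
      · rw [f'out a ha, f'out b' (by rw [h2]; exact ha), h2]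
  · -- card
    have hsub : univ.image f' ⊆ (univ.image f).erase y' := by
      intro u hu
      obtain ⟨v, _, rfl⟩ := mem_image.1 hu
      rw [mem_erase]
      by_cases h : (f v = y ∨ f v = y')
      · rw [f'in v h]
        exact ⟨hne, inImg⟩
      · rw [f'out v h]
        exact ⟨fun he => h (Or.inr he), mem_image_of_mem _ (mem_univ _)⟩
    have h1 := card_le_card hsub
    rw [card_erase_of_mem inImg'] at h1
    have h3 := card_pos.2 ⟨y', inImg'⟩
    omega

end Pool.Agent.H73R2.Et
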