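import Pool.Agent.H73R2.Et.Units

/-! Resolutions of the quotient relation are realised by induced subgraphs. -/

set_option autoImplicit false

namespace Pool.Agent.H73R2.Et

open Finset Classical Pool.Agent.H175R2 Pool.Agent.H73R2.Iv

namespace RealAux

variable {V : Type} {G : SimpleGraph V}

/-- realisation of a relation by vertices of a graph -/
structure Rz (G : SimpleGraph V) (R : V → V → Prop) (PA PB : V → Prop) (ra rb : V → V) : Prop where
  injA : ∀ u u', PA u → PA u' → ra u = ra u' → u = u'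
  injB : ∀ u u', PB u → PB u' → rb u = rb u' → u = u'
  ne : ∀ u w, PA u → PB w → ra u ≠ rb w
  AA : ∀ u u', PA u → PA u' → ¬ G.Adj (ra u) (ra u')
  BB : ∀ u u', PB u → PB u' → ¬ G.Adj (rb u) (rb u')
  AB : ∀ u w, PA u → PB w → (G.Adj (ra u) (rb w) ↔ R u w)
  dom : ∀ u w, R u w → PA u ∧ PB w

variable {R : V → V → Prop} {PA PB : V → Prop} {ra rb : V → V}

theorem Rz.flip (h : Rz G R PA PB ra rb) : Rz G (fun a b => R b a) PB PA rb ra where
  injA := h.injB
  injB := h.injA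
  ne := fun u w hu hw => (h.ne w u hw hu).symm
  AA := h.BB
  BB := h.AA
  AB := fun u w hu hw => by rw [G.adj_comm]; exact h.AB w u hw hu
  dom := fun u w huw => ⟨(h.dom w u huw).2, (h.dom w u huw).1⟩

theorem Rz.hex (h : Rz G R PA PB ra rb) (h6 : ¬ (SimpleGraph.cycleGraph 6).IsIndContained G)
    (a1 a2 a3 b1 b2 b3 : V) (h11 : ¬ R a1 b1) (h12 : R a1 b2) (h13 : R a1 b3) (h21 : R a2 b1)
    (h22 : ¬ R a2 b2) (h23 : R a2 b3) (h31 : R a3 b1) (h32 : R a3 b2) (h33 : ¬ R a3 b3) : False := by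
  apply h6
  obtain ⟨p1, q2⟩ := h.dom _ _ h12
  obtain ⟨_, q3⟩ := h.dom _ _ h13
  obtain ⟨p2, q1⟩ := h.dom _ _ h21
  obtain ⟨p3, _⟩ := h.dom _ _ h31
  have na12 : a1 ≠ a2 := by rintro rfl; exact h11 h21
  have na13 : a1 ≠ a3 := by rintro rfl; exact h11 h31
  have na23 : a2 ≠ a3 := by rintro rfl; exact h22 h32
  have nb12 : b1 ≠ b2 := by rintro rfl; exact h11 h12
  have nb13 : b1 ≠ b3 := by rintro rfl; exact h11 h13
  have nb23 : b2 ≠ b3 := by rintro rfl; exact h22 h23
  have ia12 := fun e => na12 (h.injA _ _ p1 p2 e)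
  have ia13 := fun e => na13 (h.injA _ _ p1 p3 e)
  have ia23 := fun e => na23 (h.injA _ _ p2 p3 e)
  have ib12 := fun e => nb12 (h.injB _ _ q1 q2 e)
  have ib13 := fun e => nb13 (h.injB _ _ q1 q3 e)
  have ib23 := fun e => nb23 (h.injB _ _ q2 q3 e)
  have n11 := h.ne _ _ p1 q1
  have n12 := h.ne _ _ p1 q2
  have n13 := h.ne _ _ p1 q3
  have n21 := h.ne _ _ p2 q1
  have n22 := h.ne _ _ p2 q2
  have n23 := h.ne _ _ p2 q3
  have n31 := h.ne _ _ p3 q1
  have n32 := h.ne _ _ p3 q2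
  have n33 := h.ne _ _ p3 q3
  have e11 : ¬ G.Adj (ra a1) (rb b1) := fun e => h11 ((h.AB _ _ p1 q1).1 e)
  have e12 := (h.AB _ _ p1 q2).2 h12
  have e13 := (h.AB _ _ p1 q3).2 h13
  have e21 := (h.AB _ _ p2 q1).2 h21
  have e22 : ¬ G.Adj (ra a2) (rb b2) := fun e => h22 ((h.AB _ _ p2 q2).1 e)
  have e23 := (h.AB _ _ p2 q3).2 h23
  have e31 := (h.AB _ _ p3 q1).2 h31
  have e32 := (h.AB _ _ p3 q2).2 h32
  have e33 : ¬ G.Adj (ra a3) (rb b3) := fun e => h33 ((h.AB _ _ p3 q3).1 e)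
  have aa12 := h.AA _ _ p1 p2
  have aa13 := h.AA _ _ p1 p3
  have aa23 := h.AA _ _ p2 p3
  have bb12 := h.BB _ _ q1 q2
  have bb13 := h.BB _ _ q1 q3
  have bb23 := h.BB _ _ q2 q3
  generalize ra a1 = x1 at *
  generalize ra a2 = x2 at *
  generalize ra a3 = x3 at *
  generalize rb b1 = y1 at *
  generalize rb b2 = y2 at *
  generalize rb b3 = y3 at *
  clear h11 h12 h13 h21 h22 h23 h31 h32 h33 h6 h
  let ψ : Fin 6 → V := ![y1, x2, y3, x1, y2, x3]
  have hd : ∀ i j : Fin 6, (SimpleGraph.cycleGraph 6).Adj i j ↔ (i.val + 1 = j.val ∨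
      j.val + 1 = i.val ∨ (i.val = 0 ∧ j.val = 5) ∨ (i.val = 5 ∧ j.val = 0)) := by
    intro i j
    rw [SimpleGraph.cycleGraph_adj]
    revert i j
    decide
  have hψ : ∀ i j : Fin 6, G.Adj (ψ i) (ψ j) ↔ (SimpleGraph.cycleGraph 6).Adj i j := by
    have hsymm : ∀ i j : Fin 6, i < j → (G.Adj (ψ i) (ψ j) ↔ (SimpleGraph.cycleGraph 6).Adj i j) := by
      intro i j hij
      rw [hd]
      fin_cases i <;> fin_cases j <;> simp [ψ] at hij ⊢ <;>
        first
        | assumption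
        | (rw [G.adj_comm]; assumption)
    intro i j
    rcases lt_trichotomy i j with hij | hij | hij
    · exact hsymm i j hij
    · subst hij; simp
    · rw [G.adj_comm, hsymm j i hij, SimpleGraph.adj_comm]
  have hinj : Function.Injective ψ := by
    have hlt : ∀ i j : Fin 6, i < j → ψ i ≠ ψ j := by
      intro i j hij
      fin_cases i <;> fin_cases j <;> simp [ψ] at hij ⊢ <;>
        first
        | assumption
        | (intro h; first | exact n11 h.symm | exact n12 h.symm | exact n13 h.symm |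
            exact n21 h.symm | exact n22 h.symm | exact n23 h.symm | exact n31 h.symm |
            exact n32 h.symm | exact n33 h.symm | exact ia12 h.symm | exact ia13 h.symm |
            exact ia23 h.symm | exact ib12 h.symm | exact ib13 h.symm | exact ib23 h.symm)
    intro i j h
    rcases lt_trichotomy i j with hij | hij | hij
    · exact absurd h (hlt i j hij)
    · exact hij
    · exact absurd h.symm (hlt j i hij)
  exact ⟨⟨⟨ψ, hinj⟩, fun {i j} => hψ i j⟩⟩


theorem E_embed {t : ℕ} (C Z1 Z2 Y1 Y2 : V) (X : Fin (t + 1) → V)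
    (a1 : G.Adj C Y1) (a2 : G.Adj C Y2) (a3 : ∀ i, G.Adj C (X i)) (b1 : G.Adj Z1 Y1)
    (b2 : ¬ G.Adj Z1 Y2) (b3 : ∀ i, ¬ G.Adj Z1 (X i)) (c1 : ¬ G.Adj Z2 Y1) (c2 : G.Adj Z2 Y2)
    (c3 : ∀ i, ¬ G.Adj Z2 (X i)) (d1 : ¬ G.Adj C Z1) (d2 : ¬ G.Adj C Z2) (d3 : ¬ G.Adj Z1 Z2)
    (e1 : ¬ G.Adj Y1 Y2) (e2 : ∀ i, ¬ G.Adj Y1 (X i)) (e3 : ∀ i, ¬ G.Adj Y2 (X i))
    (e4 : ∀ i j, ¬ G.Adj (X i) (X j)) (f1 : C ≠ Z1) (f2 : C ≠ Z2) (f3 : Z1 ≠ Z2) (f4 : Y1 ≠ Y2)
    (f5 : ∀ i, Y1 ≠ X i) (f6 : ∀ i, Y2 ≠ X i)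
    (f7 : ∀ i j : Fin (t + 1), 2 ≤ i.val → 2 ≤ j.val → X i = X j → i = j)
    (g1 : Z1 ≠ Y2) (g2 : ∀ i, Z1 ≠ X i) (g3 : Z2 ≠ Y1) (g4 : ∀ i, Z2 ≠ X i) :
    (E t).IsIndContained G := by
  let φ : Option (Fin (t + 1)) ⊕ Fin 2 → V := fun x =>
    match x with
    | .inl none => C
    | .inl (some i) => if i.val = 0 then Z1 else if i.val = 1 then Z2 else X i
    | .inr j => if j.val = 0 then Y1 else Y2
  have hEn : ∀ i : Fin (t + 1), (E t).Adj (.inl none) (.inl (some i)) ↔ 2 ≤ i.val := by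
    intro i; simp [E]
  have hEr : ∀ j : Fin 2, (E t).Adj (.inl none) (.inr j) := by
    intro j; fin_cases j <;> simp [E]
  have hEss : ∀ i j : Fin (t + 1), ¬ (E t).Adj (.inl (some i)) (.inl (some j)) := by
    intro i j; simp [E]
  have hErr : ∀ i j : Fin 2, ¬ (E t).Adj (.inr i) (.inr j) := by
    intro i j; simp [E]
  have hErs : ∀ (j : Fin 2) (i : Fin (t + 1)), (E t).Adj (.inr j) (.inl (some i)) ↔
      i.val = j.val := by
    intro j i
    rw [E, SimpleGraph.fromRel_adj]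
    constructor
    · rintro ⟨_, (⟨h, _⟩ | ⟨h, _⟩ | ⟨j', i', h, hj, hi⟩) | (⟨h, _⟩ | ⟨h, _⟩ | ⟨j', i', h, hj, hi⟩)⟩
      · cases h
      · cases h
      · cases hj
        cases hi
        exact h
      · cases h
      · cases h
      · cases hj
    · intro h
      exact ⟨by simp, Or.inl (Or.inr (Or.inr ⟨j, i, h, rfl, rfl⟩))⟩
  have key1 : ∀ i : Fin (t + 1), G.Adj C (φ (.inl (some i))) ↔ 2 ≤ i.val := by
    intro i
    simp only [φ]
    split_ifs with h1 h2
    · simp [h1, d1]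
    · simp [h2, d2]
    · simp only [a3 i, true_iff]; omega
  have key2 : ∀ j : Fin 2, G.Adj C (φ (.inr j)) := by
    intro j
    simp only [φ]
    split_ifs <;> assumption
  have key3 : ∀ i j : Fin (t + 1), ¬ G.Adj (φ (.inl (some i))) (φ (.inl (some j))) := by
    intro i j
    simp only [φ]
    split_ifs
    · simp
    · exact d3
    · exact b3 j
    · exact fun h => d3 h.symm
    · simp
    · exact c3 j
    · exact fun h => b3 i h.symm
    · exact fun h => c3 i h.symm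
    · exact e4 i j
  have key4 : ∀ i j : Fin 2, ¬ G.Adj (φ (.inr i)) (φ (.inr j)) := by
    intro i j
    simp only [φ]
    split_ifs
    · simp
    · exact e1
    · exact fun h => e1 h.symm
    · simp
  have key5 : ∀ (j : Fin 2) (i : Fin (t + 1)), G.Adj (φ (.inr j)) (φ (.inl (some i))) ↔
      i.val = j.val := by
    intro j i
    have hj := j.isLt
    simp only [φ]
    split_ifs with h1 h2 h3 h4 h5
    · simp [h1, h2, b1.symm]
    · simp only [h1, h3]
      exact iff_of_false (fun h => c1 h.symm) (by norm_num)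
    · exact iff_of_false (e2 i) (by omega)
    · have : j.val = 1 := by omega
      exact iff_of_false (fun h => b2 h.symm) (by omega)
    · have : j.val = 1 := by omega
      exact iff_of_true c2.symm (by omega)
    · exact iff_of_false (e3 i) (by omega)
  have hadj : ∀ x y, G.Adj (φ x) (φ y) ↔ (E t).Adj x y := by
    intro x y
    rcases x with (_ | i) | j <;> rcases y with (_ | i') | j'
    · simp
    · rw [hEn]; exact key1 i'
    · exact iff_of_true (key2 j') (hEr j')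
    · rw [G.adj_comm, (E t).adj_comm, hEn]; exact key1 i
    · exact iff_of_false (key3 i i') (hEss i i')
    · rw [G.adj_comm, (E t).adj_comm, hErs]; exact key5 j' i
    · rw [G.adj_comm, (E t).adj_comm]
      exact iff_of_true (key2 j) (hEr j)
    · rw [hErs]; exact key5 j i'
    · exact iff_of_false (key4 j j') (hErr j j')
  have hinj : Function.Injective φ := by
    have k1 : ∀ i : Fin (t + 1), C ≠ φ (.inl (some i)) := by
      intro i
      simp only [φ]
      split_ifs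
      · exact f1
      · exact f2
      · exact (a3 i).ne
    have k2 : ∀ j : Fin 2, C ≠ φ (.inr j) := fun j => (key2 j).ne
    have k3 : ∀ i j : Fin (t + 1), φ (.inl (some i)) = φ (.inl (some j)) → i = j := by
      intro i j
      simp only [φ]
      split_ifs with h1 h2 h3 h4 h5 h6 h7 h8
      · intro _; exact Fin.ext (by omega)
      · intro h; exact absurd h f3
      · intro h; exact absurd h (g2 j)
      · intro h; exact absurd h.symm f3
      · intro _; exact Fin.ext (by omega)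
      · intro h; exact absurd h (g4 j)
      · intro h; exact absurd h.symm (g2 i)
      · intro h; exact absurd h.symm (g4 i)
      · intro h; exact f7 i j (by omega) (by omega) h
    have k4 : ∀ i j : Fin 2, φ (.inr i) = φ (.inr j) → i = j := by
      intro i j
      have hi := i.isLt
      have hj := j.isLt
      simp only [φ]
      split_ifs with h1 h2 h3
      · intro _; exact Fin.ext (by omega)
      · intro h; exact absurd h f4
      · intro h; exact absurd h.symm f4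
      · intro _; exact Fin.ext (by omega)
    have k5 : ∀ (j : Fin 2) (i : Fin (t + 1)), φ (.inr j) ≠ φ (.inl (some i)) := by
      intro j i
      simp only [φ]
      split_ifs
      · exact b1.ne'
      · exact g3.symm
      · exact f5 i
      · exact g1.symm
      · exact c2.ne'
      · exact f6 i
    intro x y hxy
    rcases x with (_ | i) | j <;> rcases y with (_ | i') | j'
    · rfl
    · exact absurd hxy (k1 i')
    · exact absurd hxy (k2 j')
    · exact absurd hxy.symm (k1 i)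
    · rw [k3 i i' hxy]
    · exact absurd hxy.symm (k5 j' i)
    · exact absurd hxy.symm (k2 j)
    · exact absurd hxy (k5 j i')
    · rw [k4 j j' hxy]
  exact ⟨⟨⟨φ, hinj⟩, fun {i j} => hadj i j⟩⟩

theorem Rz.pat (h : Rz G R PA PB ra rb) {t : ℕ} (ht : 1 ≤ t) (hE : ¬ (E t).IsIndContained G)
    (c z1 z2 y1 y2 : V) (S : Finset V) (hc1 : R c y1) (hc2 : R c y2) (h11 : R z1 y1)
    (h12 : ¬ R z1 y2) (h22 : R z2 y2) (h21 : ¬ R z2 y1)
    (hS : ∀ x ∈ S, R c x ∧ ¬ R z1 x ∧ ¬ R z2 x) : S.card < t := by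
  by_contra hcard
  push Not at hcard
  apply hE
  obtain ⟨pc, q1⟩ := h.dom _ _ hc1
  obtain ⟨_, q2⟩ := h.dom _ _ hc2
  obtain ⟨p1, _⟩ := h.dom _ _ h11
  obtain ⟨p2, _⟩ := h.dom _ _ h22
  -- enumeration of `t` elements of `S`
  obtain ⟨s, hsinj, hsS⟩ : ∃ s : Fin (t + 1) → V, (∀ i j : Fin (t + 1), 2 ≤ i.val → 2 ≤ j.val →
      s i = s j → i = j) ∧ ∀ i, s i ∈ S := by
    have hSne : 0 < S.card := by omega
    refine ⟨fun i => (S.equivFin.symm ⟨i.val - 1, by omega⟩ : S), ?_, ?_⟩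
    · intro i j hi hj hij
      have := S.equivFin.symm.injective (Subtype.ext hij)
      rw [Fin.mk.injEq] at this
      exact Fin.ext (by omega)
    · intro i
      exact (S.equivFin.symm ⟨i.val - 1, _⟩).2
  have qs : ∀ i, PB (s i) := fun i => (h.dom _ _ (hS _ (hsS i)).1).2
  have hcz1 : c ≠ z1 := by rintro rfl; exact h12 hc2
  have hcz2 : c ≠ z2 := by rintro rfl; exact h21 hc1
  have hz12 : z1 ≠ z2 := by rintro rfl; exact h12 h22
  have hy12 : y1 ≠ y2 := by rintro rfl; exact h12 h11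
  have hy1s : ∀ i, y1 ≠ s i := fun i e => (hS _ (hsS i)).2.1 (e ▸ h11)
  have hy2s : ∀ i, y2 ≠ s i := fun i e => (hS _ (hsS i)).2.2 (e ▸ h22)
  exact E_embed (ra c) (ra z1) (ra z2) (rb y1) (rb y2) (fun i => rb (s i))
    ((h.AB _ _ pc q1).2 hc1) ((h.AB _ _ pc q2).2 hc2)
    (fun i => (h.AB _ _ pc (qs i)).2 (hS _ (hsS i)).1)
    ((h.AB _ _ p1 q1).2 h11) (fun e => h12 ((h.AB _ _ p1 q2).1 e))
    (fun i e => (hS _ (hsS i)).2.1 ((h.AB _ _ p1 (qs i)).1 e))
    (fun e => h21 ((h.AB _ _ p2 q1).1 e)) ((h.AB _ _ p2 q2).2 h22)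
    (fun i e => (hS _ (hsS i)).2.2 ((h.AB _ _ p2 (qs i)).1 e))
    (h.AA _ _ pc p1) (h.AA _ _ pc p2) (h.AA _ _ p1 p2)
    (h.BB _ _ q1 q2) (fun i => h.BB _ _ q1 (qs i)) (fun i => h.BB _ _ q2 (qs i))
    (fun i j => h.BB _ _ (qs i) (qs j))
    (fun e => hcz1 (h.injA _ _ pc p1 e)) (fun e => hcz2 (h.injA _ _ pc p2 e))
    (fun e => hz12 (h.injA _ _ p1 p2 e)) (fun e => hy12 (h.injB _ _ q1 q2 e))
    (fun i e => hy1s i (h.injB _ _ q1 (qs i) e)) (fun i e => hy2s i (h.injB _ _ q2 (qs i) e))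
    (fun i j hi hj e => hsinj i j hi hj (h.injB _ _ (qs i) (qs j) e))
    (h.ne _ _ p1 q2) (fun i => h.ne _ _ p1 (qs i)) (h.ne _ _ p2 q1) (fun i => h.ne _ _ p2 (qs i))

theorem Rz.cl1 (h : Rz G R PA PB ra rb) {t : ℕ} (ht : 1 ≤ t) (hE : ¬ (E t).IsIndContained G)
    (h6 : ¬ (SimpleGraph.cycleGraph 6).IsIndContained G) : Cl1 t R where
  pat := fun c z1 z2 y1 y2 S h1 h2 h3 h4 h5 h6 h7 => h.pat ht hE c z1 z2 y1 y2 S h1 h2 h3 h4 h5 h6 h7
  hex := fun a1 a2 a3 b1 b2 b3 => h.hex h6 a1 a2 a3 b1 b2 b3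

end RealAux

open RealAux in
theorem real {V : Type} [Fintype V] (t : ℕ) (ht : 1 ≤ t) (G : SimpleGraph V) (side : V → Bool)
    (hs : Side G side) (h6 : ¬ (SimpleGraph.cycleGraph 6).IsIndContained G)
    (hE : ¬ (E t).IsIndContained G) (K : ℕ) (f : V → V)
    (hU : Units G side K f) : TriG t (RR G side f) (WW side f) := by
  set PA : V → Prop := fun u => ∃ v, f v = u ∧ side v = true with hPA
  set PB : V → Prop := fun u => ∃ v, f v = u ∧ side v = false with hPB
  have hself : ∀ u, PA u → PB u → RR G side f u u := by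
    rintro u ⟨a, ha, hsa⟩ ⟨b, hb, hsb⟩
    obtain ⟨a', b', h1, h2, h3, h4, h5⟩ := hU.edge a b (ha.trans hb.symm) hsa hsb
    exact ⟨a', b', h1.trans ha, h2.trans ha, h3, h4, h5⟩
  have hdom : ∀ u w, RR G side f u w → PA u ∧ PB w := by
    rintro u w ⟨a, b, ha, hb, hsa, hsb, _⟩
    exact ⟨⟨a, ha, hsa⟩, ⟨b, hb, hsb⟩⟩
  refine ⟨?_, ?_, ?_⟩
  · intro O hO
    have hex : ∀ u : V, ∃ p : V × V, (PA u → f p.1 = u ∧ side p.1 = true) ∧
        (PB u → f p.2 = u ∧ side p.2 = false) ∧ (PA u → PB u → (G.Adj p.1 p.2 ↔ u ∉ O)) := by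
      intro u
      by_cases hA : PA u
      · by_cases hB : PB u
        · obtain ⟨a, ha, hsa⟩ := hA
          obtain ⟨b, hb, hsb⟩ := hB
          by_cases hu : u ∈ O
          · obtain ⟨a', b', h1, h2, h3, h4, h5⟩ := hU.nonedge a b (ha.trans hb.symm) hsa hsb
            exact ⟨(a', b'), fun _ => ⟨h1.trans ha, h3⟩, fun _ => ⟨h2.trans ha, h4⟩,
              fun _ _ => iff_of_false h5 (fun h => h hu)⟩
          · obtain ⟨a', b', h1, h2, h3, h4, h5⟩ := hU.edge a b (ha.trans hb.symm) hsa hsb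
            exact ⟨(a', b'), fun _ => ⟨h1.trans ha, h3⟩, fun _ => ⟨h2.trans ha, h4⟩,
              fun _ _ => iff_of_true h5 hu⟩
        · obtain ⟨a, ha, hsa⟩ := hA
          exact ⟨(a, a), fun _ => ⟨ha, hsa⟩, fun h => absurd h hB, fun _ h => absurd h hB⟩
      · by_cases hB : PB u
        · obtain ⟨b, hb, hsb⟩ := hB
          exact ⟨(b, b), fun h => absurd h hA, fun _ => ⟨hb, hsb⟩, fun h => absurd h hA⟩
        · exact ⟨(u, u), fun h => absurd h hA, fun h => absurd h hB, fun h => absurd h hA⟩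
    choose p hp1 hp2 hp3 using hex
    have hRz : Rz G (Res (RR G side f) O) PA PB (fun u => (p u).1) (fun u => (p u).2) := by
      refine ⟨?_, ?_, ?_, ?_, ?_, ?_, ?_⟩
      · intro u u' hu hu' e
        have e' : (p u).1 = (p u').1 := e
        rw [← (hp1 u hu).1, e', (hp1 u' hu').1]
      · intro u u' hu hu' e
        have e' : (p u).2 = (p u').2 := e
        rw [← (hp2 u hu).1, e', (hp2 u' hu').1]
      · intro u w hu hw e
        have e' : (p u).1 = (p w).2 := e
        have h1 := (hp1 u hu).2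
        rw [e', (hp2 w hw).2] at h1
        exact absurd h1 (by decide)
      · intro u u' hu hu' e
        exact hs _ _ e ((hp1 u hu).2.trans (hp1 u' hu').2.symm)
      · intro u u' hu hu' e
        exact hs _ _ e ((hp2 u hu).2.trans (hp2 u' hu').2.symm)
      · intro u w hu hw
        simp only [Res]
        by_cases huw : u = w
        · subst huw
          rw [hp3 u hu hw]
          constructor
          · exact fun h => ⟨hself u hu hw, fun h' => h h'.2⟩
          · exact fun h h' => h.2 ⟨rfl, h'⟩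
        · constructor
          · intro h
            exact ⟨⟨_, _, (hp1 u hu).1, (hp2 w hw).1, (hp1 u hu).2, (hp2 w hw).2, h⟩,
              fun h' => huw h'.1⟩
          · rintro ⟨⟨a, b, ha, hb, hsa, hsb, hab⟩, _⟩
            have h1 := (hU.bim a b (p w).2 (by rw [ha, hb]; exact huw)
              (by rw [hb, (hp2 w hw).1]) (by rw [hsb, (hp2 w hw).2])).1 hab
            have h2 := (hU.bim (p w).2 a (p u).1 (by rw [ha, (hp2 w hw).1]; exact Ne.symm huw)
              (by rw [ha, (hp1 u hu).1]) (by rw [hsa, (hp1 u hu).2])).1 h1.symm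
            exact h2.symm
      · intro u w h
        exact hdom u w h.1
    exact ⟨hRz.cl1 ht hE h6, hRz.flip.cl1 ht hE h6⟩
  · intro u
    constructor
    · rintro ⟨a, b, ha, hb, hsa, hsb, _⟩
      exact ⟨a, b, ha, hb, hsa, hsb⟩
    · rintro ⟨a, b, ha, hb, hsa, hsb⟩
      exact hself u ⟨a, ha, hsa⟩ ⟨b, hb, hsb⟩
  · intro x a b hxb hax
    obtain ⟨v, hv, hsv⟩ := (hdom x b hxb).1
    obtain ⟨w, hw, hsw⟩ := (hdom a x hax).2
    exact ⟨v, w, hv, hw, hsv, hsw⟩

end Pool.Agent.H73R2.Et
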