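import Pool.Agent.H73R2.Et.Str
import Pool.Agent.H73R2.Et.Deg
import Pool.Agent.H73R2.Et.Bfs
import Pool.Agent.H73R2.Et.Real
import Pool.Agent.H73R2.Et.Merge
import Pool.Agent.H175R2.Cw

set_option autoImplicit false

namespace Pool.Agent.H73R2.Et

open Finset Classical Pool.Agent.H175R2 Pool.Agent.H73R2.Iv

variable {L : Type}

lemma TriG.flip {k : ℕ} {R : L → L → Prop} {W : L → Prop} (h : TriG k R W) :
    TriG k (fun a b => R b a) W := by
  refine ⟨fun O hO => ?_, h.diag, fun x a b h1 h2 => h.both x b a h2 h1⟩
  have e : Res (fun a b => R b a) O = fun a b => Res R O b a := by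
    funext a b
    simp only [Res, eq_iff_iff]
    constructor
    · rintro ⟨h1, h2⟩; exact ⟨h1, fun h3 => h2 ⟨h3.1.symm, h3.1 ▸ h3.2⟩⟩
    · rintro ⟨h1, h2⟩; exact ⟨h1, fun h3 => h2 ⟨h3.1.symm, h3.1 ▸ h3.2⟩⟩
  rw [e]
  exact ⟨(h.cls O hO).2, (h.cls O hO).1⟩

lemma Half.flip {R : L → L → Prop} {N : ℕ} (h : Half (fun a b => R b a) N) : Half R N := by
  obtain ⟨z, y, h⟩ := h
  refine ⟨fun i => y (N - 1 - i), fun j => z (N - 1 - j), fun i j hi hj => ?_⟩
  exact (h (N - 1 - j) (N - 1 - i) (by omega) (by omega)).trans (by omega)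

variable {V : Type} [Fintype V]

lemma Side.flip {G : SimpleGraph V} {side : V → Bool} (h : Side G side) :
    Side G (fun v => !side v) := by
  intro a b hab
  have := h a b hab
  revert this
  cases h1 : side a <;> cases h2 : side b <;> simp [h1, h2]

lemma WW_flip {side : V → Bool} {f : V → V} (u : V) :
    WW (fun v => !side v) f u ↔ WW side f u := by
  constructor
  · rintro ⟨a, b, h1, h2, h3, h4⟩
    exact ⟨b, a, h2, h1, by simpa using h4, by simpa using h3⟩
  · rintro ⟨a, b, h1, h2, h3, h4⟩
    exact ⟨b, a, h2, h1, by simpa using h4, by simpa using h3⟩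

lemma RR_flip {G : SimpleGraph V} {side : V → Bool} {f : V → V} (u v : V) :
    RR G (fun v => !side v) f u v ↔ RR G side f v u := by
  constructor
  · rintro ⟨a, b, h1, h2, h3, h4, h5⟩
    exact ⟨b, a, h2, h1, by simpa using h4, by simpa using h3, h5.symm⟩
  · rintro ⟨a, b, h1, h2, h3, h4, h5⟩
    exact ⟨b, a, h2, h1, by simpa using h4, by simpa using h3, h5.symm⟩

lemma Units.flip {G : SimpleGraph V} {side : V → Bool} {K : ℕ} {f : V → V}
    (h : Units G side K f) : Units G (fun v => !side v) K f := by
  refine ⟨fun x a a' h1 h2 h3 => h.bim x a a' h1 h2 (by simpa using h3), h.dt, ?_, ?_⟩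
  · intro a b hab ha hb
    obtain ⟨a', b', h1, h2, h3, h4, h5⟩ := h.edge b a hab.symm (by simpa using hb)
      (by simpa using ha)
    exact ⟨b', a', by rw [h2, hab], by rw [h1, hab], by simpa using h4, by simpa using h3, h5.symm⟩
  · intro a b hab ha hb
    obtain ⟨a', b', h1, h2, h3, h4, h5⟩ := h.nonedge b a hab.symm (by simpa using hb)
      (by simpa using ha)
    exact ⟨b', a', by rw [h2, hab], by rw [h1, hab], by simpa using h4, by simpa using h3,
      fun h => h5 h.symm⟩

lemma Units.id (G : SimpleGraph V) (side : V → Bool) (K : ℕ) : Units G side K id := by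
  refine ⟨?_, ?_, ?_, ?_⟩
  · intro x a a' _ h _
    simp only [id_eq] at h
    rw [h]
  · intro u
    right
    have : (univ.filter fun v : V => _root_.id v = u) = {u} := by ext; simp
    rw [this]
    exact DT.leaf u
  · intro a b h ha hb
    simp only [id_eq] at h
    subst h
    rw [ha] at hb
    exact absurd hb (by simp)
  · intro a b h ha hb
    simp only [id_eq] at h
    subst h
    rw [ha] at hb
    exact absurd hb (by simp)

/-- quotient graph on nodes -/
def Q (G : SimpleGraph V) (side : V → Bool) (f : V → V) : SimpleGraph (V × Bool) where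
  Adj x y := (x.2 = true ∧ y.2 = false ∧ RR G side f x.1 y.1) ∨
    (x.2 = false ∧ y.2 = true ∧ RR G side f y.1 x.1)
  symm := ⟨fun x y h => by tauto⟩
  loopless := ⟨fun x h => by
    rcases h with ⟨h1, h2, _⟩ | ⟨h1, h2, _⟩ <;> rw [h1] at h2 <;> exact absurd h2 (by simp)⟩

lemma exists_rep {G : SimpleGraph V} {side : V → Bool} {K : ℕ} {f : V → V}
    (hU : Units G side K f) : ∃ ρ : V × Bool → V,
      (∀ x, (∃ v, f v = x.1 ∧ side v = x.2) → f (ρ x) = x.1 ∧ side (ρ x) = x.2) ∧
      (∀ u, WW side f u → G.Adj (ρ (u, true)) (ρ (u, false))) := by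
  have h1 : ∀ u, ∃ p : V × V, (((∃ v, f v = u ∧ side v = true) → f p.1 = u ∧ side p.1 = true) ∧
      ((∃ v, f v = u ∧ side v = false) → f p.2 = u ∧ side p.2 = false)) ∧
      (WW side f u → G.Adj p.1 p.2) := by
    intro u
    by_cases hW : WW side f u
    · obtain ⟨a, b, ha, hb, ha', hb'⟩ := hW
      obtain ⟨a', b', h1, h2, h3, h4, h5⟩ := hU.edge a b (ha.trans hb.symm) ha' hb'
      exact ⟨(a', b'), ⟨fun _ => ⟨h1.trans ha, h3⟩, fun _ => ⟨h2.trans ha, h4⟩⟩, fun _ => h5⟩
    · by_cases hA : ∃ v, f v = u ∧ side v = true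
      · obtain ⟨v, hv, hv'⟩ := hA
        by_cases hB : ∃ v, f v = u ∧ side v = false
        · obtain ⟨w, hw, hw'⟩ := hB
          exact absurd ⟨v, w, hv, hw, hv', hw'⟩ hW
        · exact ⟨(v, v), ⟨fun _ => ⟨hv, hv'⟩, fun h => absurd h hB⟩, fun h => absurd h hW⟩
      · by_cases hB : ∃ v, f v = u ∧ side v = false
        · obtain ⟨w, hw, hw'⟩ := hB
          exact ⟨(w, w), ⟨fun h => absurd h hA, fun _ => ⟨hw, hw'⟩⟩, fun h => absurd h hW⟩
        · exact ⟨(u, u), ⟨fun h => absurd h hA, fun h => absurd h hB⟩, fun h => absurd h hW⟩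
  choose p hp using h1
  refine ⟨fun x => if x.2 = true then (p x.1).1 else (p x.1).2, ?_, ?_⟩
  · rintro ⟨u, b⟩ hx
    cases b
    · simpa using (hp u).1.2 hx
    · simpa using (hp u).1.1 hx
  · intro u hu
    simpa using (hp u).2 hu

lemma adj_of_Q {G : SimpleGraph V} {side : V → Bool} (hs : Side G side) {K : ℕ} {f : V → V}
    (hU : Units G side K f) {ρ : V × Bool → V}
    (h1 : ∀ x, (∃ v, f v = x.1 ∧ side v = x.2) → f (ρ x) = x.1 ∧ side (ρ x) = x.2)
    (h2 : ∀ u, WW side f u → G.Adj (ρ (u, true)) (ρ (u, false))) (x y : V × Bool)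
    (hx : ∃ v, f v = x.1 ∧ side v = x.2) (hy : ∃ v, f v = y.1 ∧ side v = y.2) :
    G.Adj (ρ x) (ρ y) ↔ (Q G side f).Adj x y := by
  have hx' := h1 x hx
  have hy' := h1 y hy
  constructor
  · intro h
    have h3 := hs _ _ h
    rw [hx'.2, hy'.2] at h3
    cases hb : x.2
    · have hb' : y.2 = true := by
        rw [hb] at h3; revert h3; cases y.2 <;> simp
      exact Or.inr ⟨hb, hb', ρ y, ρ x, hy'.1, hx'.1, by rw [hy'.2, hb'], by rw [hx'.2, hb], h.symm⟩
    · have hb' : y.2 = false := by
        rw [hb] at h3; revert h3; cases y.2 <;> simp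
      exact Or.inl ⟨hb, hb', ρ x, ρ y, hx'.1, hy'.1, by rw [hx'.2, hb], by rw [hy'.2, hb'], h⟩
  · intro h
    have key : ∀ x y : V × Bool, (∃ v, f v = x.1 ∧ side v = x.2) →
        (∃ v, f v = y.1 ∧ side v = y.2) → x.2 = true → y.2 = false →
        RR G side f x.1 y.1 → G.Adj (ρ x) (ρ y) := by
      rintro ⟨u, b⟩ ⟨w, b'⟩ hx hy hb hb' ⟨a, c, ha, hc, ha', hc', hac⟩
      simp only at hb hb' ha hc
      subst hb hb'
      have hx' := h1 _ hx
      have hy' := h1 _ hy
      simp only at hx' hy'
      by_cases hne : u = w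
      · subst hne
        exact h2 u ⟨a, c, ha, hc, ha', hc'⟩
      · have k1 : G.Adj a (ρ (w, false)) := (hU.bim a c _ (by rw [ha, hc]; exact hne)
          (by rw [hc, hy'.1]) (by rw [hc', hy'.2])).1 hac
        exact ((hU.bim _ a (ρ (u, true)) (by rw [ha, hy'.1]; exact fun h => hne h.symm)
          (by rw [ha, hx'.1]) (by rw [ha', hx'.2])).1 k1.symm).symm
    rcases h with ⟨h3, h4, h5⟩ | ⟨h3, h4, h5⟩
    · exact key x y hx hy h3 h4 h5
    · exact (key y x hy hx h4 h3 h5).symm

lemma no_c5 {G : SimpleGraph V} {side : V → Bool} (hs : Side G side) :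
    ¬ (SimpleGraph.cycleGraph 5).IsIndContained G := by
  rintro ⟨g⟩
  have h : ∀ i j : Fin 5, (SimpleGraph.cycleGraph 5).Adj i j → side (g i) ≠ side (g j) :=
    fun i j hij => hs _ _ (g.map_rel_iff.2 hij)
  have h01 := h 0 1 (by decide)
  have h12 := h 1 2 (by decide)
  have h23 := h 2 3 (by decide)
  have h34 := h 3 4 (by decide)
  have h40 := h 4 0 (by decide)
  revert h01 h12 h23 h34 h40
  cases side (g 0) <;> cases side (g 1) <;> cases side (g 2) <;> cases side (g 3) <;>
    cases side (g 4) <;> simp

theorem dt_univ (t : ℕ) (ht : 1 ≤ t) : ∃ K, ∀ (V : Type) [Fintype V] (G : SimpleGraph V),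
    IsChordalBipartite G → ¬ (E t).IsIndContained G → DT0 G K univ := by
  obtain ⟨N, hN⟩ := str t ht
  obtain ⟨D, hD⟩ := deg t N
  obtain ⟨K, hK⟩ := bfs D
  refine ⟨max K 2, ?_⟩
  intro V _ G hG hE
  obtain ⟨⟨c⟩, hcyc⟩ := hG
  -- the 2-colouring
  let side : V → Bool := fun v => decide (c v = 0)
  have hs : Side G side := by
    intro a b hab h
    have := c.valid hab
    simp only [side, decide_eq_decide] at h
    omega
  have hex : ∃ n, ∃ f : V → V, Units G side (max K 2) f ∧ (univ.image f).card = n :=
    ⟨_, id, Units.id G side _, rfl⟩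
  obtain ⟨f, hU, hf⟩ := Nat.find_spec hex
  have hmin : ∀ f' : V → V, Units G side (max K 2) f' →
      ¬ (univ.image f').card < (univ.image f).card := by
    intro f' hU' hlt
    rw [hf] at hlt
    exact Nat.find_min hex hlt ⟨f', hU', rfl⟩
  have hT := real t ht G side hs (hcyc 6 le_rfl) hE _ f hU
  have hnh : ¬ Half (RR G side f) N := by
    intro hh
    obtain ⟨CA, CB, κ, hM⟩ := hN V _ _ hT hh
    obtain ⟨f', h1, h2⟩ := merge G side hs _ (le_max_right _ _) f hU CA CB κ hM
    exact hmin f' h1 h2
  have hd1 : ∀ c, (univ.filter fun y => RR G side f c y).card ≤ D := by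
    refine hD V _ _ hT hnh ?_
    intro y y' hne hy hy' hex htw
    obtain ⟨f', h1, h2⟩ := mergeTwin G side hs _ (le_max_right _ _) f hU y y' hne hy hy' hex htw
    exact hmin f' h1 h2
  have hd2 : ∀ c, (univ.filter fun y => RR G side f y c).card ≤ D := by
    refine hD V (fun a b => RR G side f b a) _ hT.flip (fun h => hnh h.flip) ?_
    intro y y' hne hy hy' hex htw
    obtain ⟨f', h1, h2⟩ := mergeTwin G (fun v => !side v) hs.flip _ (le_max_right _ _) f hU.flip
      y y' hne (fun h => hy ((WW_flip _).1 h)) (fun h => hy' ((WW_flip _).1 h))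
      (by obtain ⟨x, hx⟩ := hex; exact ⟨x, (RR_flip _ _).2 hx⟩)
      (fun x => by rw [RR_flip, RR_flip]; exact htw x)
    have h1' := h1.flip
    simp only [Bool.not_not] at h1'
    exact hmin f' h1' h2
  refine hK V (V × Bool) G (Q G side f) (fun v => (f v, side v))
    (fun x => if WW side f x.1 then (x.1, true) else x) (max K 2) (le_max_left _ _) ?_ ?_ ?_ ?_ ?_ ?_
  · intro v v' hne
    constructor
    · intro hadj
      have h1 := hs v v' hadj
      cases hv : side v
      · have hv' : side v' = true := by
          rw [hv] at h1; revert h1; cases side v' <;> simp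
        exact Or.inr ⟨rfl, hv', v', v, rfl, rfl, hv', hv, hadj.symm⟩
      · have hv' : side v' = false := by
          rw [hv] at h1; revert h1; cases side v' <;> simp
        exact Or.inl ⟨rfl, hv', v, v', rfl, rfl, hv, hv', hadj⟩
    · intro hadj
      have key : ∀ v v' : V, side v = true → side v' = false → f v ≠ f v' →
          RR G side f (f v) (f v') → G.Adj v v' := by
        rintro v v' hv hv' hne ⟨a, b, ha, hb, ha', hb', hab⟩
        have h1 : G.Adj a v' := (hU.bim a b v' (by rw [ha, hb]; exact hne) hb
          (by rw [hb', hv'])).1 hab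
        exact ((hU.bim v' a v (by rw [ha]; exact hne.symm) ha (by rw [ha', hv])).1 h1.symm).symm
      have hfne : f v ≠ f v' := by
        intro he
        apply hne
        have hW : WW side f (f v) := by
          rcases hadj with ⟨h1, h2, _⟩ | ⟨h1, h2, _⟩
          · exact ⟨v, v', rfl, he.symm, h1, h2⟩
          · exact ⟨v', v, he.symm, rfl, h2, h1⟩
        have hW' : WW side f (f v') := he ▸ hW
        simp only [hW, hW', if_true]
        rw [he]
      rcases hadj with ⟨h1, h2, h3⟩ | ⟨h1, h2, h3⟩
      · exact key v v' h1 h2 hfne h3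
      · exact (key v' v h2 h1 hfne.symm h3).symm
  · rintro ⟨u, b⟩
    refine (?_ : ∀ S : Finset V, (∀ v, v ∈ S ↔ (if WW side f (f v) then (f v, true)
      else (f v, side v)) = (u, b)) → DT0 G (max K 2) S) _ (fun v => by simp [mem_filter])
    intro S hS
    by_cases hW : WW side f u
    · cases b
      · left
        ext v
        simp only [hS, notMem_empty, iff_false]
        intro h
        split_ifs at h with h1
        · simp at h
        · simp only [Prod.mk.injEq] at h
          rw [h.1] at h1
          exact h1 hW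
      · have : S = univ.filter fun v => f v = u := by
          ext v
          simp only [hS, mem_filter, mem_univ, true_and]
          constructor
          · intro h
            split_ifs at h with h1
            · simpa using h
            · simp only [Prod.mk.injEq] at h
              exact h.1
          · intro h
            rw [h]
            simp [hW]
        rw [this]
        exact hU.dt u
    · by_cases hn : ∃ v, f v = u ∧ side v = b
      · obtain ⟨v0, hv0, hv0'⟩ := hn
        have : S = univ.filter fun v => f v = u := by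
          ext v
          simp only [hS, mem_filter, mem_univ, true_and]
          constructor
          · intro h
            split_ifs at h with h1
            · simp only [Prod.mk.injEq] at h
              rw [h.1] at h1
              exact absurd h1 hW
            · simp only [Prod.mk.injEq] at h
              exact h.1
          · intro h
            rw [h]
            simp only [hW, if_false, Prod.mk.injEq, true_and]
            by_contra hne
            apply hW
            cases hv : side v
            · rw [hv] at hne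
              have hb : b = true := by revert hne; cases b <;> simp
              exact ⟨v0, v, hv0, h, by rw [hv0', hb], hv⟩
            · rw [hv] at hne
              have hb : b = false := by revert hne; cases b <;> simp
              exact ⟨v, v0, h, hv0, hv, by rw [hv0', hb]⟩
        rw [this]
        exact hU.dt u
      · left
        ext v
        simp only [hS, notMem_empty, iff_false]
        intro h
        split_ifs at h with h1
        · simp only [Prod.mk.injEq] at h
          rw [h.1] at h1
          exact hW h1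
        · simp only [Prod.mk.injEq] at h
          exact hn ⟨v, h.1, h.2⟩
  · rintro ⟨u, b⟩ ⟨u', b'⟩ hne h
    simp only at h
    by_cases hW : WW side f u
    · by_cases hW' : WW side f u'
      · simp only [hW, hW', if_true, Prod.mk.injEq, and_true] at h
        subst h
        have hr := (hT.diag u).2 hW
        have hb : b ≠ b' := fun hb => hne (by rw [hb])
        cases b
        · have : b' = true := by revert hb; cases b' <;> simp
          subst this
          exact Or.inr ⟨rfl, rfl, hr⟩
        · have : b' = false := by revert hb; cases b' <;> simp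
          subst this
          exact Or.inl ⟨rfl, rfl, hr⟩
      · simp only [hW, hW', if_true, if_false, Prod.mk.injEq] at h
        exact absurd (h.1 ▸ hW) hW'
    · by_cases hW' : WW side f u'
      · simp only [hW, hW', if_true, if_false, Prod.mk.injEq] at h
        exact absurd (h.1 ▸ hW') hW
      · simp only [hW, hW', if_false] at h
        exact absurd h hne
  · rintro ⟨u, b⟩ ⟨u', b'⟩ ⟨u'', b''⟩ h h'
    have e1 : u = u' := by
      simp only at h
      split_ifs at h <;> simp only [Prod.mk.injEq] at h <;> exact h.1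
    have e2 : u' = u'' := by
      simp only at h'
      split_ifs at h' <;> simp only [Prod.mk.injEq] at h' <;> exact h'.1
    subst e1 e2
    simp only [Prod.mk.injEq, true_and]
    cases b <;> cases b' <;> cases b'' <;> simp
  · rintro ⟨u, b⟩
    cases b
    · refine le_trans ?_ (hd2 u)
      refine Finset.card_le_card_of_injOn Prod.fst ?_ ?_
      · rintro ⟨v, b'⟩ hv
        simp only [coe_filter, mem_univ, true_and, Set.mem_ofPred_eq] at hv ⊢
        rcases hv with ⟨h1, _⟩ | ⟨_, _, h3⟩
        · exact absurd h1 (by simp)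
        · exact h3
      · rintro ⟨v, b'⟩ hv ⟨v', b''⟩ hv' h
        simp only [coe_filter, mem_univ, true_and, Set.mem_ofPred_eq] at hv hv' h
        rcases hv with ⟨h1, _⟩ | ⟨_, h2, h3⟩
        · exact absurd h1 (by simp)
        · rcases hv' with ⟨h1, _⟩ | ⟨_, h2', h3'⟩
          · exact absurd h1 (by simp)
          · simp only at h2 h2'
            rw [h, h2, h2']
    · refine le_trans ?_ (hd1 u)
      refine Finset.card_le_card_of_injOn Prod.fst ?_ ?_
      · rintro ⟨v, b'⟩ hv
        simp only [coe_filter, mem_univ, true_and, Set.mem_ofPred_eq] at hv ⊢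
        rcases hv with ⟨_, _, h3⟩ | ⟨h1, _⟩
        · exact h3
        · exact absurd h1 (by simp)
      · rintro ⟨v, b'⟩ hv ⟨v', b''⟩ hv' h
        simp only [coe_filter, mem_univ, true_and, Set.mem_ofPred_eq] at hv hv' h
        rcases hv with ⟨_, h2, h3⟩ | ⟨h1, _⟩
        · rcases hv' with ⟨_, h2', h3'⟩ | ⟨h1, _⟩
          · simp only at h2 h2'
            rw [h, h2, h2']
          · exact absurd h1 (by simp)
        · exact absurd h1 (by simp)
  · rintro n hn ⟨g⟩
    obtain ⟨ρ, hρ1, hρ2⟩ := exists_rep hU
    have hnode : ∀ x y, (Q G side f).Adj x y → ∃ v, f v = x.1 ∧ side v = x.2 := by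
      rintro x y (⟨h1, h2, a, b, ha, hb, ha', hb', _⟩ | ⟨h1, h2, a, b, ha, hb, ha', hb', _⟩)
      · exact ⟨a, ha, by rw [ha', h1]⟩
      · exact ⟨b, hb, by rw [hb', h1]⟩
    have hall : ∀ i, ∃ v, f v = (g i).1 ∧ side v = (g i).2 := by
      intro i
      haveI : NeZero n := ⟨by omega⟩
      have hadj : (SimpleGraph.cycleGraph n).Adj i (i + 1) := by
        obtain ⟨m, rfl⟩ : ∃ m, n = m + 2 := ⟨n - 2, by omega⟩
        rw [SimpleGraph.cycleGraph_adj]
        right
        simp
      exact hnode _ _ (g.map_rel_iff.2 hadj)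
    have hcont : (SimpleGraph.cycleGraph n).IsIndContained G := by
      refine ⟨⟨⟨fun i => ρ (g i), ?_⟩, ?_⟩⟩
      · intro i j hij
        have h1 := hρ1 _ (hall i)
        have h2 := hρ1 _ (hall j)
        apply g.injective
        simp only at hij
        rw [hij] at h1
        exact Prod.ext (h1.1.symm.trans h2.1) (h1.2.symm.trans h2.2)
      · intro i j
        exact (adj_of_Q hs hU hρ1 hρ2 _ _ (hall i) (hall j)).trans g.map_rel_iff
    rcases Nat.lt_or_ge n 6 with h | h
    · have : n = 5 := by omega
      subst this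
      exact no_c5 hs hcont
    · exact hcyc n h hcont

theorem nonempty_of_built' {k : ℕ} {V : Type} {G : SimpleGraph V} {l : V → Fin k}
    (h : CwBuilt k V G l) : Nonempty V := by
  induction h with
  | single i => infer_instance
  | union V W G H l m _ _ h1 h2 => exact ⟨.inl h1.some⟩
  | join _ _ _ _ _ _ _ h => exact h
  | relabel _ _ _ _ _ _ h => exact h

theorem cliqueWidth_empty' {V : Type} (hV : ¬ Nonempty V) (G : SimpleGraph V) :
    cliqueWidth G = 0 := by
  have : {k | CwLE G k} = ∅ := by
    ext k
    simp only [Set.mem_ofPred_eq, Set.mem_empty_iff_false, iff_false]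
    rintro ⟨W, G', l, hb, ⟨e⟩⟩
    exact hV ⟨e.symm (nonempty_of_built' hb).some⟩
  unfold cliqueWidth
  rw [this]
  exact Nat.sInf_empty

theorem main (t : ℕ) (ht : 1 ≤ t) : ∃ c : ℕ, ∀ (V : Type) [Finite V] (G : SimpleGraph V),
    IsChordalBipartite G → ¬ (E t).IsIndContained G → cliqueWidth G ≤ c := by
  obtain ⟨K, hK⟩ := dt_univ t ht
  refine ⟨3 * (K + 1), ?_⟩
  intro V _ G hG hE
  have := Fintype.ofFinite V
  rcases hK V G hG hE with h | h
  · have hV : ¬ Nonempty V := by
      rintro ⟨v⟩
      have : v ∈ (univ : Finset V) := mem_univ v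
      rw [h] at this
      simp at this
    rw [cliqueWidth_empty' hV]
    exact Nat.zero_le _
  · exact cliqueWidth_le_of_dt h

end Pool.Agent.H73R2.Et
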