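import Pool.Agent.H73R2.Et.Defs

set_option autoImplicit false

namespace Pool.Agent.H73R2.Et

open Finset Classical Pool.Agent.H175R2 Pool.Agent.H73R2.Iv

/-- `p` is a path from `x` to `y` of length `l` with inner vertices in `S`. -/
def PW {N : Type} (Γ : SimpleGraph N) (S : Finset N) (x y : N) (l : ℕ) (p : ℕ → N) : Prop :=
  p 0 = x ∧ p l = y ∧ (∀ i < l, Γ.Adj (p i) (p (i + 1))) ∧ ∀ i, 0 < i → i < l → p i ∈ S

theorem exists_inner {N : Type} [Fintype N] (Γ : SimpleGraph N) (S : Finset N) (hS : Cn Γ S)
    (a : N) (ha : a ∈ S) : ∀ b ∈ S, ∃ (l : ℕ) (p : ℕ → N), p 0 = a ∧ p l = b ∧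
      (∀ i < l, Γ.Adj (p i) (p (i + 1))) ∧ ∀ i ≤ l, p i ∈ S := by
  by_contra hcon
  push Not at hcon
  obtain ⟨b, hb, hno⟩ := hcon
  let T := S.filter (fun b => ∃ (l : ℕ) (p : ℕ → N), p 0 = a ∧ p l = b ∧
      (∀ i < l, Γ.Adj (p i) (p (i + 1))) ∧ ∀ i ≤ l, p i ∈ S)
  have haT : a ∈ T := by
    simp only [T, mem_filter]
    exact ⟨ha, 0, fun _ => a, rfl, rfl, by intro i hi; omega, fun i _ => ha⟩
  have hbT : b ∉ T := by
    simp only [T, mem_filter]
    rintro ⟨_, l, p, h1, h2, h3, h4⟩
    obtain ⟨i, hi, hi'⟩ := hno l p h1 h2 h3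
    exact hi' (h4 i hi)
  obtain ⟨u, hu, v, hv, huv⟩ := hS.2 T (filter_subset _ _) ⟨a, haT⟩ ⟨b, by simp [hb, hbT]⟩
  simp only [T, mem_filter, mem_sdiff] at hu hv
  obtain ⟨hvS, hvT⟩ := hv
  obtain ⟨huS, l, p, h1, h2, h3, h4⟩ := hu
  apply hvT
  refine ⟨hvS, l + 1, fun i => if i ≤ l then p i else v, ?_, ?_, ?_, ?_⟩
  · simp [h1]
  · simp
  · intro i hi
    by_cases h : i + 1 ≤ l
    · have h' : i ≤ l := by omega
      simp only [h, h', if_true]
      exact h3 i (by omega)
    · have h' : i = l := by omega
      subst h'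
      simp [h2, huv]
  · intro i hi
    simp only
    split_ifs with h
    · exact h4 i h
    · exact hvS

theorem exists_pw {N : Type} [Fintype N] (Γ : SimpleGraph N) (S : Finset N) (hS : Cn Γ S)
    (x y : N) (h1 : ∃ a ∈ S, Γ.Adj x a) (h2 : ∃ a ∈ S, Γ.Adj y a) :
    ∃ (l : ℕ) (p : ℕ → N), PW Γ S x y l p := by
  obtain ⟨a, ha, hxa⟩ := h1
  obtain ⟨b, hb, hyb⟩ := h2
  obtain ⟨l, p, k1, k2, k3, k4⟩ := exists_inner Γ S hS a ha b hb
  refine ⟨l + 2, fun i => if i = 0 then x else if i ≤ l + 1 then p (i - 1) else y, ?_, ?_, ?_, ?_⟩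
  · simp
  · simp
  · intro i hi
    by_cases h0 : i = 0
    · subst h0
      simp [k1, hxa]
    · by_cases h' : i + 1 ≤ l + 1
      · have h'' : i ≤ l + 1 := by omega
        simp only [h0, h'', h', if_true, if_false, Nat.add_one_ne_zero]
        have := k3 (i - 1) (by omega)
        rw [show i - 1 + 1 = i by omega] at this
        simpa using this
      · have h'' : i = l + 1 := by omega
        subst h''
        simp [k2, hyb.symm]
  · intro i h0 hi
    have e1 : i ≠ 0 := by omega
    have e2 : i ≤ l + 1 := by omega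
    simp only [e1, e2, if_true, if_false]
    exact k4 _ (by omega)

theorem exists_induced_path {N : Type} [Fintype N] (Γ : SimpleGraph N) (S : Finset N)
    (hS : Cn Γ S) (x y : N) (hxy : x ≠ y) (hn : ¬ Γ.Adj x y) (hx : x ∉ S) (hy : y ∉ S)
    (h1 : ∃ a ∈ S, Γ.Adj x a) (h2 : ∃ a ∈ S, Γ.Adj y a) :
    ∃ (l : ℕ) (p : ℕ → N), 2 ≤ l ∧ PW Γ S x y l p ∧ (∀ i j, i < j → j ≤ l → p i ≠ p j) ∧
      ∀ i j, i < j → j ≤ l → Γ.Adj (p i) (p j) → j = i + 1 := by
  have hex : ∃ l, ∃ p : ℕ → N, PW Γ S x y l p := exists_pw Γ S hS x y h1 h2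
  obtain ⟨p, hp⟩ := Nat.find_spec hex
  set l := Nat.find hex with hl
  have hmin : ∀ m, m < l → ¬ ∃ p : ℕ → N, PW Γ S x y m p := fun m hm => Nat.find_min hex hm
  obtain ⟨q0, ql, q3, q4⟩ := hp
  have hl2 : 2 ≤ l := by
    by_contra hlt
    have : l = 0 ∨ l = 1 := by omega
    rcases this with h | h
    · rw [h] at ql
      exact hxy (q0.symm.trans ql)
    · have := q3 0 (by omega)
      rw [h] at ql
      rw [q0, ql] at this
      exact hn this
  refine ⟨l, p, hl2, ⟨q0, ql, q3, q4⟩, ?_, ?_⟩
  · intro i j hij hj he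
    apply hmin (l - (j - i)) (by omega)
    refine ⟨fun k => if k ≤ i then p k else p (k + (j - i)), ?_, ?_, ?_, ?_⟩
    · simp [q0]
    · simp only
      split_ifs with h
      · have e : l - (j - i) = i := by omega
        have e' : j = l := by omega
        rw [e, he, e', ql]
      · rw [show l - (j - i) + (j - i) = l by omega, ql]
    · intro k hk
      by_cases h : k + 1 ≤ i
      · have h' : k ≤ i := by omega
        simp only [h, h', if_true]
        exact q3 k (by omega)
      · by_cases h' : k = i
        · subst h'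
          simp only [le_refl, if_true, h, if_false]
          rw [he, show k + 1 + (j - k) = j + 1 by omega]
          exact q3 j (by omega)
        · have h'' : ¬ k ≤ i := by omega
          simp only [h, h'', if_false]
          rw [show k + 1 + (j - i) = k + (j - i) + 1 by omega]
          exact q3 _ (by omega)
    · intro k h0 hk
      simp only
      split_ifs with h
      · exact q4 k h0 (by omega)
      · exact q4 _ (by omega) (by omega)
  · intro i j hij hj hadj
    by_contra hne
    have hlt : i + 1 < j := by omega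
    apply hmin (l - (j - i - 1)) (by omega)
    refine ⟨fun k => if k ≤ i then p k else p (k + (j - i - 1)), ?_, ?_, ?_, ?_⟩
    · simp [q0]
    · simp only
      split_ifs with h
      · omega
      · rw [show l - (j - i - 1) + (j - i - 1) = l by omega, ql]
    · intro k hk
      by_cases h : k + 1 ≤ i
      · have h' : k ≤ i := by omega
        simp only [h, h', if_true]
        exact q3 k (by omega)
      · by_cases h' : k = i
        · subst h'
          simp only [le_refl, if_true, h, if_false]
          rw [show k + 1 + (j - k - 1) = j by omega]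
          exact hadj
        · have h'' : ¬ k ≤ i := by omega
          simp only [h, h'', if_false]
          rw [show k + 1 + (j - i - 1) = k + (j - i - 1) + 1 by omega]
          exact q3 _ (by omega)
    · intro k h0 hk
      simp only
      split_ifs with h
      · exact q4 k h0 (by omega)
      · exact q4 _ (by omega) (by omega)

theorem cyc_adj_iff {n : ℕ} (u v : Fin n) (h : u.val < v.val) :
    (SimpleGraph.cycleGraph n).Adj u v ↔ v.val = u.val + 1 ∨ (u.val = 0 ∧ v.val = n - 1) := by
  have hu := u.2
  have hv := v.2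
  rw [SimpleGraph.cycleGraph_adj', Fin.val_sub, Fin.val_sub]
  have e1 : (n - v.val + u.val) % n = n - v.val + u.val := Nat.mod_eq_of_lt (by omega)
  have e2 : (n - u.val + v.val) % n = v.val - u.val := by
    rw [Nat.mod_eq_sub_mod (by omega), Nat.mod_eq_of_lt (by omega)]; omega
  rw [e1, e2]
  omega

/-- two anticomplete connected sets `S`, `T` both attached to the nonadjacent vertices `x`, `y`;
if no vertex of `S` is adjacent to both `x` and `y` there is an induced cycle of length at least
five. -/
theorem cyc {N : Type} [Fintype N] (Γ : SimpleGraph N) (x y : N) (hxy : x ≠ y)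
    (hn : ¬ Γ.Adj x y) (S T : Finset N) (hS : Cn Γ S) (hT : Cn Γ T) (hxS : x ∉ S) (hyS : y ∉ S)
    (hxT : x ∉ T) (hyT : y ∉ T) (hd : Disjoint S T) (hST : ∀ a ∈ S, ∀ b ∈ T, ¬ Γ.Adj a b)
    (h1 : ∃ a ∈ S, Γ.Adj x a) (h2 : ∃ a ∈ S, Γ.Adj y a) (h3 : ∃ b ∈ T, Γ.Adj x b)
    (h4 : ∃ b ∈ T, Γ.Adj y b) (hc : ¬ ∃ p ∈ S, Γ.Adj x p ∧ Γ.Adj y p) :
    ∃ n, 5 ≤ n ∧ (SimpleGraph.cycleGraph n).IsIndContained Γ := by
  obtain ⟨l, p, hl, ⟨p0, pl, p3, p4⟩, pinj, pind⟩ :=
    exists_induced_path Γ S hS x y hxy hn hxS hyS h1 h2
  obtain ⟨m, q, hm, ⟨q0, qm, q3, q4⟩, qinj, qind⟩ :=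
    exists_induced_path Γ T hT x y hxy hn hxT hyT h3 h4
  have hl3 : 3 ≤ l := by
    by_contra hlt
    have : l = 2 := by omega
    subst this
    apply hc
    refine ⟨p 1, p4 1 (by omega) (by omega), ?_, ?_⟩
    · rw [← p0]; exact p3 0 (by omega)
    · rw [← pl]; exact (p3 1 (by omega)).symm
  have hdis : ∀ a ∈ S, ∀ b ∈ T, a ≠ b := fun a ha b hb => by
    rintro rfl
    exact (Finset.disjoint_left.1 hd ha) hb
  let φ : ℕ → N := fun i => if i ≤ l then p i else q (l + m - i)
  have hpx : ∀ i, 0 < i → i < l → p i ≠ x := fun i hi hi' h => hxS (h ▸ p4 i hi hi')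
  -- injectivity and adjacency for `i < j < l + m`
  have key : ∀ i j, i < j → j < l + m →
      φ i ≠ φ j ∧ (Γ.Adj (φ i) (φ j) ↔ (j = i + 1 ∨ (i = 0 ∧ j = l + m - 1))) := by
    intro i j hij hj
    by_cases hjl : j ≤ l
    · have hil : i ≤ l := by omega
      simp only [φ, hjl, hil, if_true]
      refine ⟨pinj i j hij hjl, ?_, ?_⟩
      · intro h
        exact Or.inl (pind i j hij hjl h)
      · rintro (h | h)
        · subst h
          exact p3 i (by omega)
        · omega
    · by_cases hil : i ≤ l
      · simp only [φ, hjl, hil, if_true, if_false]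
        have hqT : q (l + m - j) ∈ T := q4 _ (by omega) (by omega)
        by_cases hi0 : i = 0
        · subst hi0
          rw [p0]
          refine ⟨fun h => hxT (h ▸ hqT), ?_, ?_⟩
          · intro h
            rw [← q0] at h
            have := qind 0 (l + m - j) (by omega) (by omega) h
            right
            constructor
            · rfl
            · omega
          · rintro (h | h)
            · omega
            · have e : l + m - j = 1 := by omega
              rw [e, ← q0]
              exact q3 0 (by omega)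
        · by_cases hill : i = l
          · subst hill
            rw [pl]
            refine ⟨fun h => hyT (h ▸ hqT), ?_, ?_⟩
            · intro h
              rw [← qm] at h
              have := qind (i + m - j) m (by omega) le_rfl h.symm
              left
              omega
            · rintro (h | h)
              · have e : i + m - j + 1 = m := by omega
                have := q3 (i + m - j) (by omega)
                rw [e, qm] at this
                exact this.symm
              · omega
          · have hpS : p i ∈ S := p4 i (by omega) (by omega)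
            refine ⟨hdis _ hpS _ hqT, ?_, ?_⟩
            · intro h
              exact absurd h (hST _ hpS _ hqT)
            · intro h
              omega
      · simp only [φ, hjl, hil, if_false]
        refine ⟨?_, ?_, ?_⟩
        · exact (qinj (l + m - j) (l + m - i) (by omega) (by omega)).symm
        · intro h
          have := qind (l + m - j) (l + m - i) (by omega) (by omega) h.symm
          left
          omega
        · rintro (h | h)
          · have e : l + m - j + 1 = l + m - i := by omega
            have := q3 (l + m - j) (by omega)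
            rw [e] at this
            exact this.symm
          · omega
  refine ⟨l + m, by omega, ⟨⟨⟨fun i : Fin (l + m) => φ i.val, ?_⟩, ?_⟩⟩⟩
  · intro u v h
    by_contra hne
    have hne' : u.val ≠ v.val := fun h => hne (Fin.ext h)
    rcases Nat.lt_or_gt_of_ne hne' with h' | h'
    · exact (key _ _ h' v.2).1 h
    · exact (key _ _ h' u.2).1 h.symm
  · intro u v
    show Γ.Adj (φ u.val) (φ v.val) ↔ _
    rcases Nat.lt_trichotomy u.val v.val with h' | h' | h'
    · rw [(key _ _ h' v.2).2, cyc_adj_iff u v h']
    · have : u = v := Fin.ext h'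
      subst this
      simp
    · rw [SimpleGraph.adj_comm, (key _ _ h' u.2).2, SimpleGraph.adj_comm, cyc_adj_iff v u h']

end Pool.Agent.H73R2.Et
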