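import Pool.Agent.H73R2.Iv.Tr

/-! Clique-width of `E_t`-free chordal bipartite graphs: definitions shared by the modules. -/

set_option autoImplicit false

namespace Pool.Agent.H73R2.Et

open Finset Classical

/-- The graph `E_t` (`t ≥ 1`): the star with centre `inl none` and leaves `inl (some i)`, `i < t + 1`,
with the edge to the leaf `0` subdivided once by `inr 0` and the edge to the leaf `1` subdivided
once by `inr 1`. -/
def E (t : ℕ) : SimpleGraph (Option (Fin (t + 1)) ⊕ Fin 2) :=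
  SimpleGraph.fromRel fun x y =>
    (x = .inl none ∧ ∃ i : Fin (t + 1), 2 ≤ i.val ∧ y = .inl (some i)) ∨
    (x = .inl none ∧ ∃ j : Fin 2, y = .inr j) ∨
    (∃ (j : Fin 2) (i : Fin (t + 1)), i.val = j.val ∧ x = .inr j ∧ y = .inl (some i))

/-- chordal bipartite: bipartite, and no induced cycle of length at least six -/
def IsChordalBipartite {V : Type} (G : SimpleGraph V) : Prop :=
  G.IsBipartite ∧ ∀ n, 6 ≤ n → ¬ (SimpleGraph.cycleGraph n).IsIndContained G

variable {L : Type}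

/-- one-sided conditions on a bipartite relation `R` (first argument: side A, second: side B):
no `k`-pattern centred on side A, no induced six-cycle. -/
structure Cl1 (k : ℕ) (R : L → L → Prop) : Prop where
  pat : ∀ (c z1 z2 y1 y2 : L) (S : Finset L), R c y1 → R c y2 → R z1 y1 → ¬ R z1 y2 → R z2 y2 →
    ¬ R z2 y1 → (∀ x ∈ S, R c x ∧ ¬ R z1 x ∧ ¬ R z2 x) → S.card < k
  hex : ∀ a1 a2 a3 b1 b2 b3 : L, ¬ R a1 b1 → R a1 b2 → R a1 b3 → R a2 b1 → ¬ R a2 b2 → R a2 b3 →
    R a3 b1 → R a3 b2 → ¬ R a3 b3 → False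

def Cls (k : ℕ) (R : L → L → Prop) : Prop := Cl1 k R ∧ Cl1 k (fun a b => R b a)

/-- remove the diagonal pairs with label in `O` -/
def Res (R : L → L → Prop) (O : Finset L) : L → L → Prop := fun u v => R u v ∧ ¬ (u = v ∧ u ∈ O)

/-- a bipartite relation whose diagonal pairs (labels in `W`, the wild labels) may be present or
absent: all resolutions are in the class. -/
structure TriG (k : ℕ) (R : L → L → Prop) (W : L → Prop) : Prop where
  cls : ∀ O : Finset L, (∀ u ∈ O, W u) → Cls k (Res R O)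
  diag : ∀ u, R u u ↔ W u
  both : ∀ x a b, R x b → R a x → W x

/-- a half graph of length `N` -/
def Half (R : L → L → Prop) (N : ℕ) : Prop :=
  ∃ z y : ℕ → L, ∀ i j, i < N → j < N → (R (z i) (y j) ↔ j ≤ i)

/-- The output of the structure lemma: a union of labels (side-A nodes `CA`, side-B nodes `CB`)
that is a bimodule, and in which the labels are ordered by `κ` like in a chain graph. -/
structure Mrg (R : L → L → Prop) (W : L → Prop) (CA CB : Finset L) (κ : L → ℕ) : Prop where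
  edge : ∃ a ∈ CA, ∃ b ∈ CB, R a b
  nonedge : ∃ a ∈ CA, ∃ b ∈ CB, ¬ R a b
  two : ∃ u ∈ CA ∪ CB, ∃ v ∈ CA ∪ CB, u ≠ v
  wild : ∀ u, W u → (u ∈ CA ↔ u ∈ CB)
  exA : ∀ a ∈ CA, ∃ b, R a b
  exB : ∀ b ∈ CB, ∃ a, R a b
  homA : ∀ b, b ∉ CB → ∀ a ∈ CA, ∀ a' ∈ CA, (R a b ↔ R a' b)
  homB : ∀ a, a ∉ CA → ∀ b ∈ CB, ∀ b' ∈ CB, (R a b ↔ R a b')
  ordAB : ∀ u v, u ≠ v → κ u ≤ κ v → u ∈ CB → v ∈ CA → R v u
  ordBA : ∀ u v, u ≠ v → κ u ≤ κ v → u ∈ CA → v ∈ CB → ¬ R u v

end Pool.Agent.H73R2.Et
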