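import Pool.Agent.H73R2.Et.Defs

set_option autoImplicit false

namespace Pool.Agent.H73R2.Et

open Finset Classical

variable {L : Type}

lemma res_empty (R : L → L → Prop) : Res R ∅ = R := by
  funext a b; simp [Res]

/-- all the data of the structure lemma -/
structure Ctx (k : ℕ) (R : L → L → Prop) (W : L → Prop) (CA CB : Finset L) (u v w yo : L)
    (Y Z : Finset L) : Prop where
  hT : TriG k R W
  uv : ∀ b, R u b → R v b
  vw : ∀ b, R v b → R w b
  Yc : k ≤ Y.card
  Y1 : ∀ y ∈ Y, R w y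
  Y2 : ∀ y ∈ Y, ¬ R v y
  Zc : k ≤ Z.card
  Z1 : ∀ x ∈ Z, R x yo
  Z2 : ∀ b, ¬ R u b → ∀ x ∈ Z, ¬ R x b
  uo : R u yo
  lo : ∀ a, ¬ R a yo → ∀ y ∈ Y, ¬ R a y
  wv : ∃ b, R w b ∧ ¬ R v b
  memB : ∀ b, b ∈ CB ↔ R v b ∧ ¬ R u b
  memA : ∀ a, a ∈ CA ↔ (∀ b, R a b → R v b) ∧ ∃ b ∈ CB, R a b
  ex : ∃ a1 a2 b1 b2, a1 ∈ CA ∧ a2 ∈ CA ∧ b1 ∈ CB ∧ b2 ∈ CB ∧ R a1 b1 ∧ ¬ R a1 b2 ∧ a1 ≠ a2
  vA : v ∈ CA

namespace Ctx

variable {k : ℕ} {R : L → L → Prop} {W : L → Prop} {CA CB : Finset L} {u v w yo : L}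
  {Y Z : Finset L}

lemma EA (h : Ctx k R W CA CB u v w yo Y Z) (O : Finset L) (hO : ∀ x ∈ O, W x) (hw : w ∉ O)
    {z1 z2 y1 y2 : L} (h1 : R w y1) (h2 : R w y2) (h3 : Res R O z1 y1) (h4 : ¬ Res R O z1 y2)
    (h5 : Res R O z2 y2) (h6 : ¬ Res R O z2 y1) (h7 : ∀ y ∈ Y, ¬ R z1 y)
    (h8 : ∀ y ∈ Y, ¬ R z2 y) : False := by
  have hr : ∀ b, R w b → Res R O w b := fun b hb => ⟨hb, fun h => hw h.2⟩
  have := (h.hT.cls O hO).1.pat w z1 z2 y1 y2 Y (hr _ h1) (hr _ h2) h3 h4 h5 h6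
    (fun x hx => ⟨hr _ (h.Y1 x hx), fun h' => h7 x hx h'.1, fun h' => h8 x hx h'.1⟩)
  have := h.Yc
  omega

lemma EB (h : Ctx k R W CA CB u v w yo Y Z) (O : Finset L) (hO : ∀ x ∈ O, W x) (hw : yo ∉ O)
    {z1 z2 y1 y2 : L} (h1 : R y1 yo) (h2 : R y2 yo) (h3 : Res R O y1 z1) (h4 : ¬ Res R O y2 z1)
    (h5 : Res R O y2 z2) (h6 : ¬ Res R O y1 z2) (h7 : ∀ x ∈ Z, ¬ R x z1)
    (h8 : ∀ x ∈ Z, ¬ R x z2) : False := by
  have hr : ∀ b, R b yo → Res R O b yo := fun b hb => ⟨hb, fun h => hw (h.1 ▸ h.2)⟩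
  have := (h.hT.cls O hO).2.pat yo z1 z2 y1 y2 Z (hr _ h1) (hr _ h2) h3 h4 h5 h6
    (fun x hx => ⟨hr _ (h.Z1 x hx), fun h' => h7 x hx h'.1, fun h' => h8 x hx h'.1⟩)
  have := h.Zc
  omega

lemma uY (h : Ctx k R W CA CB u v w yo Y Z) : ∀ y ∈ Y, ¬ R u y :=
  fun y hy hu => h.Y2 y hy (h.uv y hu)

lemma AY (h : Ctx k R W CA CB u v w yo Y Z) {a : L} (ha : a ∈ CA) : ∀ y ∈ Y, ¬ R a y :=
  fun y hy hu => h.Y2 y hy (((h.memA a).1 ha).1 y hu)

lemma wA (h : Ctx k R W CA CB u v w yo Y Z) : w ∉ CA := by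
  intro hw
  obtain ⟨b, hb, hb'⟩ := h.wv
  exact hb' (((h.memA w).1 hw).1 b hb)

lemma uA (h : Ctx k R W CA CB u v w yo Y Z) : u ∉ CA := by
  intro hu
  obtain ⟨b, hb, hb'⟩ := ((h.memA u).1 hu).2
  exact ((h.memB b).1 hb).2 hb'

lemma L1 (h : Ctx k R W CA CB u v w yo Y Z) {a b1 : L} (hb : b1 ∈ CB) (hab : R a b1) :
    R a yo := by
  by_contra hn
  have hb' := (h.memB b1).1 hb
  exact h.EA ∅ (by simp) (by simp) (z1 := a) (z2 := u) (y1 := b1) (y2 := yo)
    (h.vw _ hb'.1) (h.vw _ (h.uv _ h.uo)) (by rw [res_empty]; exact hab)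
    (by rw [res_empty]; exact hn) (by rw [res_empty]; exact h.uo)
    (by rw [res_empty]; exact hb'.2) (h.lo a hn) h.uY

lemma full (h : Ctx k R W CA CB u v w yo Y Z) {a b : L} (ha : a ∈ CA) (hb : R u b) : R a b := by
  by_contra hn
  obtain ⟨b1, hb1, hab1⟩ := ((h.memA a).1 ha).2
  have hb' := (h.memB b1).1 hb1
  exact h.EA ∅ (by simp) (by simp) (z1 := a) (z2 := u) (y1 := b1) (y2 := b)
    (h.vw _ hb'.1) (h.vw _ (h.uv _ hb)) (by rw [res_empty]; exact hab1)
    (by rw [res_empty]; exact hn) (by rw [res_empty]; exact hb)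
    (by rw [res_empty]; exact hb'.2) (h.AY ha) h.uY

lemma homA (h : Ctx k R W CA CB u v w yo Y Z) (b : L) (hb : b ∉ CB) (a : L) (ha : a ∈ CA)
    (a' : L) (ha' : a' ∈ CA) : R a b ↔ R a' b := by
  by_cases hv : R v b
  · have hu : R u b := by
      by_contra hu
      exact hb ((h.memB b).2 ⟨hv, hu⟩)
    exact ⟨fun _ => h.full ha' hu, fun _ => h.full ha hu⟩
  · exact ⟨fun h1 => absurd (((h.memA a).1 ha).1 b h1) hv,
      fun h1 => absurd (((h.memA a').1 ha').1 b h1) hv⟩

lemma out (h : Ctx k R W CA CB u v w yo Y Z) {a b : L} (ha : a ∉ CA) (hb : b ∈ CB)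
    (hab : R a b) : ∃ b2, R a b2 ∧ ¬ R v b2 := by
  by_contra hn
  apply ha
  rw [h.memA]
  exact ⟨fun b' hb' => by_contra fun h' => hn ⟨b', hb', h'⟩, b, hb, hab⟩

lemma homB1 (h : Ctx k R W CA CB u v w yo Y Z) (a : L) (ha : a ∉ CA) (b : L) (hb : b ∈ CB)
    (b' : L) (hb' : b' ∈ CB) (hab : R a b) : R a b' := by
  by_contra hn
  obtain ⟨b2, h2, h2'⟩ := h.out ha hb hab
  have hb3 := (h.memB b').1 hb'
  exact h.EB ∅ (by simp) (by simp) (z1 := b') (z2 := b2) (y1 := v) (y2 := a)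
    (h.uv _ h.uo) (h.L1 hb hab) (by rw [res_empty]; exact hb3.1)
    (by rw [res_empty]; exact hn) (by rw [res_empty]; exact h2)
    (by rw [res_empty]; exact h2') (h.Z2 b' hb3.2) (h.Z2 b2 fun h' => h2' (h.uv _ h'))

lemma wild1 (h : Ctx k R W CA CB u v w yo Y Z) (x : L) (hx : W x) (hA : x ∈ CA) : x ∈ CB := by
  by_contra hB
  have hxx := (h.hT.diag x).2 hx
  have hvx := ((h.memA x).1 hA).1 x hxx
  have hux : R u x := by
    by_contra hu
    exact hB ((h.memB x).2 ⟨hvx, hu⟩)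
  obtain ⟨b1, hb1, hxb1⟩ := ((h.memA x).1 hA).2
  have hb' := (h.memB b1).1 hb1
  have hne : b1 ≠ x := fun he => hB (he ▸ hb1)
  have hwx : w ≠ x := fun he => h.wA (he ▸ hA)
  have hux' : u ≠ x := fun he => h.uA (he ▸ hA)
  exact h.EA {x} (by simpa using hx) (by simpa using hwx) (z1 := x) (z2 := u) (y1 := b1) (y2 := x)
    (h.vw _ hb'.1) (h.vw _ hvx) ⟨hxb1, fun h' => hne h'.1.symm⟩
    (fun h' => h'.2 ⟨rfl, by simp⟩) ⟨hux, fun h' => hux' h'.1⟩ (fun h' => hb'.2 h'.1)
    (h.AY hA) h.uY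

lemma wild2 (h : Ctx k R W CA CB u v w yo Y Z) (x : L) (hx : W x) (hB : x ∈ CB) : x ∈ CA := by
  by_contra hA
  have hxx := (h.hT.diag x).2 hx
  obtain ⟨b2, h2, h2'⟩ := h.out hA hB hxx
  have hb' := (h.memB x).1 hB
  have hyo := h.L1 hB hxx
  have hyx : yo ≠ x := fun he => hb'.2 (he ▸ h.uo)
  have hvx : v ≠ x := fun he => hA (he ▸ h.vA)
  have hne : b2 ≠ x := fun he => h2' (he ▸ hb'.1)
  exact h.EB {x} (by simpa using hx) (by simpa using hyx) (z1 := x) (z2 := b2) (y1 := v) (y2 := x)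
    (h.uv _ h.uo) hyo ⟨hb'.1, fun h' => hvx h'.1⟩ (fun h' => h'.2 ⟨rfl, by simp⟩)
    ⟨h2, fun h' => hne h'.1.symm⟩ (fun h' => h2' h'.1) (h.Z2 x hb'.2)
    (h.Z2 b2 fun h' => h2' (h.uv _ h'))

lemma chain (h : Ctx k R W CA CB u v w yo Y Z) (O : Finset L) (hO : ∀ x ∈ O, W x)
    (hOA : O ⊆ CA) {a a' b b' : L} (ha : a ∈ CA) (ha' : a' ∈ CA) (hb : b ∈ CB) (hb' : b' ∈ CB)
    (h1 : Res R O a b) (h2 : ¬ Res R O a b') (h3 : Res R O a' b') (h4 : ¬ Res R O a' b) :
    False :=
  h.EA O hO (fun h' => h.wA (hOA h')) (z1 := a) (z2 := a') (y1 := b) (y2 := b')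
    (h.vw _ ((h.memB b).1 hb).1) (h.vw _ ((h.memB b').1 hb').1) h1 h2 h3 h4 (h.AY ha) (h.AY ha')

/-- rank of a B-label -/
noncomputable def rk (R : L → L → Prop) (CA CB : Finset L) (b : L) : ℕ :=
  (CB.filter fun b' => ∀ a ∈ CA, R a b → R a b').card

noncomputable def dg (R : L → L → Prop) (CB : Finset L) (a : L) : ℕ :=
  (CB.filter fun b => R a b).card

lemma K1 (h : Ctx k R W CA CB u v w yo Y Z) {a b : L} (ha : a ∈ CA) (hb : b ∈ CB) :
    R a b ↔ rk R CA CB b ≤ dg R CB a := by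
  constructor
  · intro hab
    apply card_le_card
    intro b' hb'
    rw [mem_filter] at hb' ⊢
    exact ⟨hb'.1, hb'.2 a ha hab⟩
  · intro hle
    by_contra hn
    have : dg R CB a < rk R CA CB b := by
      apply card_lt_card
      refine ⟨?_, fun hs => ?_⟩
      · intro b' hb'
        rw [mem_filter] at hb' ⊢
        refine ⟨hb'.1, fun a' ha' hab' => ?_⟩
        by_contra hn'
        exact h.chain ∅ (by simp) (by simp) ha ha' hb'.1 hb (by rw [res_empty]; exact hb'.2)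
          (by rw [res_empty]; exact hn) (by rw [res_empty]; exact hab')
          (by rw [res_empty]; exact hn')
      · have := hs (mem_filter.2 ⟨hb, fun _ _ h => h⟩)
        exact hn (mem_filter.1 this).2
    omega

lemma K2 (h : Ctx k R W CA CB u v w yo Y Z) {x : L} (hA : x ∈ CA) (hB : x ∈ CB) (hW : W x) :
    rk R CA CB x = dg R CB x := by
  have hxx := (h.hT.diag x).2 hW
  have hle := (h.K1 hA hB).1 hxx
  by_contra hne
  have hlt : rk R CA CB x < dg R CB x := lt_of_le_of_ne hle hne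
  have : ∃ b1 ∈ CB, R x b1 ∧ ∃ a1 ∈ CA, R a1 x ∧ ¬ R a1 b1 := by
    by_contra hn
    have : dg R CB x ≤ rk R CA CB x := by
      apply card_le_card
      intro b1 hb1
      rw [mem_filter] at hb1 ⊢
      refine ⟨hb1.1, fun a1 ha1 h1 => ?_⟩
      by_contra h2
      exact hn ⟨b1, hb1.1, hb1.2, a1, ha1, h1, h2⟩
    omega
  obtain ⟨b1, hb1, hxb1, a1, ha1, h1, h2⟩ := this
  have hbx : b1 ≠ x := fun he => h2 (he ▸ h1)
  have hax : a1 ≠ x := fun he => h2 (he ▸ hxb1)
  exact h.chain {x} (by simpa using hW) (by simpa using hA) hA ha1 hb1 hB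
    ⟨hxb1, fun h' => hbx h'.1.symm⟩ (fun h' => h'.2 ⟨rfl, by simp⟩) ⟨h1, fun h' => hax h'.1⟩
    (fun h' => h2 h'.1)

lemma K3 (h : Ctx k R W CA CB u v w yo Y Z) {x x' : L} (hA : x ∈ CA) (hB : x ∈ CB)
    (hA' : x' ∈ CA) (hB' : x' ∈ CB) (hW : W x) (hW' : W x') (hne : x ≠ x') :
    rk R CA CB x ≠ rk R CA CB x' := by
  intro he
  have k2 := h.K2 hA hB hW
  have k2' := h.K2 hA' hB' hW'
  have h1 : R x x' := (h.K1 hA hB').2 (by omega)
  have h2 : R x' x := (h.K1 hA' hB).2 (by omega)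
  exact h.chain {x, x'} (by
      intro a ha
      simp only [mem_insert, mem_singleton] at ha
      rcases ha with rfl | rfl
      · exact hW
      · exact hW') (by
      intro a ha
      simp only [mem_insert, mem_singleton] at ha
      rcases ha with rfl | rfl
      · exact hA
      · exact hA') hA hA' hB' hB
    ⟨h1, fun h' => hne h'.1⟩ (fun h' => h'.2 ⟨rfl, by simp⟩) ⟨h2, fun h' => hne h'.1.symm⟩
    (fun h' => h'.2 ⟨rfl, by simp⟩)

noncomputable def kap (R : L → L → Prop) (CA CB : Finset L) (x : L) : ℕ :=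
  if x ∈ CA ∧ x ∈ CB then 3 * rk R CA CB x + 1 else
    if x ∈ CB then 3 * rk R CA CB x else 3 * dg R CB x + 2

theorem mrg (h : Ctx k R W CA CB u v w yo Y Z) : Mrg R W CA CB (kap R CA CB) := by
  obtain ⟨a1, a2, b1, b2, ha1, ha2, hb1, hb2, h1, h2, h3⟩ := h.ex
  have hW : ∀ x, x ∈ CA → x ∈ CB → W x := by
    intro x hA hB
    obtain ⟨b, _, hb⟩ := ((h.memA x).1 hA).2
    exact h.hT.both x v b hb ((h.memB x).1 hB).1
  refine ⟨⟨a1, ha1, b1, hb1, h1⟩, ⟨a1, ha1, b2, hb2, h2⟩,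
    ⟨a1, mem_union_left _ ha1, a2, mem_union_left _ ha2, h3⟩,
    fun x hx => ⟨h.wild1 x hx, h.wild2 x hx⟩, ?_, ?_, h.homA, ?_, ?_, ?_⟩
  · intro a ha
    obtain ⟨b, _, hb⟩ := ((h.memA a).1 ha).2
    exact ⟨b, hb⟩
  · intro b hb
    exact ⟨v, ((h.memB b).1 hb).1⟩
  · intro a ha b hb b' hb'
    exact ⟨h.homB1 a ha b hb b' hb', h.homB1 a ha b' hb' b hb⟩
  · intro x x' hne hle hB hA'
    rw [h.K1 hA' hB]
    unfold kap at hle
    by_cases hA : x ∈ CA
    · by_cases hB' : x' ∈ CB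
      · have := h.K2 hA' hB' (hW _ hA' hB')
        simp only [hA, hB, hA', hB', and_self, if_true] at hle
        omega
      · simp only [hA, hB, hA', hB', and_self, if_true, and_false, if_false] at hle
        omega
    · by_cases hB' : x' ∈ CB
      · have := h.K2 hA' hB' (hW _ hA' hB')
        simp only [hA, hB, hA', hB', and_self, if_true, false_and, if_false] at hle
        omega
      · simp only [hA, hB, hA', hB', if_true, false_and, and_false, if_false] at hle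
        omega
  · intro x x' hne hle hA hB'
    rw [h.K1 hA hB']
    unfold kap at hle
    by_cases hB : x ∈ CB
    · have k2 := h.K2 hA hB (hW _ hA hB)
      by_cases hA' : x' ∈ CA
      · have := h.K3 hA hB hA' hB' (hW _ hA hB) (hW _ hA' hB') hne
        simp only [hA, hB, hA', hB', and_self, if_true] at hle
        omega
      · simp only [hA, hB, hA', hB', and_self, if_true, false_and, if_false] at hle
        omega
    · by_cases hA' : x' ∈ CA
      · simp only [hA, hB, hA', hB', and_self, if_true, and_false, if_false] at hle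
        omega
      · simp only [hA, hB, hA', hB', if_true, false_and, and_false, if_false] at hle
        omega

end Ctx

/-! ### Step 1 -/

/-- indices `i < N` with `z i` not adjacent to `b` -/
noncomputable def PP (R : L → L → Prop) (N : ℕ) (z : ℕ → L) (b : L) : Finset ℕ :=
  (range N).filter fun i => ¬ R (z i) b

def Bad (R : L → L → Prop) (N : ℕ) (z : ℕ → L) (b : L) : Prop :=
  ∃ i i', i < i' ∧ i' < N ∧ R (z i) b ∧ ¬ R (z i') b

variable {k N : ℕ} {R : L → L → Prop} {z y : ℕ → L}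

lemma z_inj (hH : ∀ i j, i < N → j < N → (R (z i) (y j) ↔ j ≤ i)) {i j : ℕ} (hi : i < N)
    (hj : j < N) (h : z i = z j) : i = j := by
  have h1 := (hH i i hi hi).2 le_rfl
  have h2 := (hH j j hj hj).2 le_rfl
  rw [h] at h1
  rw [← h] at h2
  have := (hH j i hj hi).1 h1
  have := (hH i j hi hj).1 h2
  omega

lemma y_inj (hH : ∀ i j, i < N → j < N → (R (z i) (y j) ↔ j ≤ i)) {i j : ℕ} (hi : i < N)
    (hj : j < N) (h : y i = y j) : i = j := by
  have h1 := (hH i i hi hi).2 le_rfl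
  have h2 := (hH j j hj hj).2 le_rfl
  rw [h] at h1
  rw [← h] at h2
  have := (hH i j hi hj).1 h1
  have := (hH j i hj hi).1 h2
  omega

lemma bad_card (_hk : 1 ≤ k) (hc : Cls k R) (hH : ∀ i j, i < N → j < N → (R (z i) (y j) ↔ j ≤ i))
    {b : L} (hb : Bad R N z b) : (PP R N z b).card ≤ k := by
  obtain ⟨i, i', h1, h2, h3, h4⟩ := hb
  have hne : (PP R N z b).Nonempty := ⟨i', by simp [PP, h2, h4]⟩
  set m := (PP R N z b).max' hne with hm
  have hmm : m ∈ PP R N z b := max'_mem _ _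
  have him : i' ≤ m := le_max' _ _ (by simp [PP, h2, h4])
  have hmm' := hmm
  simp only [PP, mem_filter, mem_range] at hmm'
  have hS := hc.2.pat (y 0) b (y m) (z i) (z m) (((PP R N z b).erase m).image z)
    ((hH i 0 (by omega) (by omega)).2 (Nat.zero_le _))
    ((hH m 0 (by omega) (by omega)).2 (Nat.zero_le _)) h3 hmm'.2
    ((hH m m hmm'.1 hmm'.1).2 le_rfl)
    (fun h => by have := (hH i m (by omega) hmm'.1).1 h; omega)
    (by
      intro x hx
      rw [mem_image] at hx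
      obtain ⟨l, hl, rfl⟩ := hx
      rw [mem_erase] at hl
      have hl' := hl.2
      simp only [PP, mem_filter, mem_range] at hl'
      have hlm : l ≤ m := le_max' _ _ hl.2
      have hne' := hl.1
      refine ⟨(hH l 0 hl'.1 (by omega)).2 (Nat.zero_le _), hl'.2, fun h => ?_⟩
      have := (hH l m hl'.1 hmm'.1).1 h
      omega)
  rw [card_image_of_injOn, card_erase_of_mem hmm] at hS
  · omega
  · intro a ha c hc h
    simp only [coe_erase, Set.mem_sdiff, mem_coe, PP, mem_filter, mem_range] at ha hc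
    exact z_inj hH ha.1.1 hc.1.1 h

lemma exists_U [Fintype L] (hk : 1 ≤ k) (hc : Cls k R)
    (hH : ∀ i j, i < N → j < N → (R (z i) (y j) ↔ j ≤ i)) :
    ∃ U : Finset ℕ, U.card ≤ 2 * k ∧ ∀ b, Bad R N z b → PP R N z b ⊆ U := by
  by_cases hn : ∃ b, Bad R N z b
  swap
  · exact ⟨∅, by simp, fun b hb => absurd ⟨b, hb⟩ hn⟩
  obtain ⟨b0, hb0⟩ := hn
  obtain ⟨⟨b1, b2⟩, hb, hmax⟩ := exists_max_image
    ((univ.filter (Bad R N z)) ×ˢ (univ.filter (Bad R N z)))
    (fun p => (PP R N z p.1 ∪ PP R N z p.2).card) ⟨(b0, b0), by simp [hb0]⟩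
  simp only [mem_product, mem_filter, mem_univ, true_and, Prod.forall] at hb hmax
  refine ⟨PP R N z b1 ∪ PP R N z b2, ?_, ?_⟩
  · refine (card_union_le _ _).trans ?_
    have := bad_card hk hc hH hb.1
    have := bad_card hk hc hH hb.2
    omega
  · intro b3 hb3 e he
    by_contra hn
    rw [mem_union, not_or] at hn
    have p1 : ∃ e1 ∈ PP R N z b1, e1 ∉ PP R N z b2 ∧ e1 ∉ PP R N z b3 := by
      by_contra hno
      push Not at hno
      have := hmax b2 b3 ⟨hb.2, hb3⟩
      have h2 : (PP R N z b1 ∪ PP R N z b2).card < (PP R N z b2 ∪ PP R N z b3).card := by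
        apply card_lt_card
        refine ⟨?_, fun hs => ?_⟩
        · intro x hx
          rw [mem_union] at hx ⊢
          rcases hx with hx | hx
          · by_cases h2 : x ∈ PP R N z b2
            · exact Or.inl h2
            · exact Or.inr (hno x hx h2)
          · exact Or.inl hx
        · have := hs (mem_union_right _ he)
          rw [mem_union] at this
          tauto
      omega
    have p2 : ∃ e2 ∈ PP R N z b2, e2 ∉ PP R N z b1 ∧ e2 ∉ PP R N z b3 := by
      by_contra hno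
      push Not at hno
      have := hmax b1 b3 ⟨hb.1, hb3⟩
      have h2 : (PP R N z b1 ∪ PP R N z b2).card < (PP R N z b1 ∪ PP R N z b3).card := by
        apply card_lt_card
        refine ⟨?_, fun hs => ?_⟩
        · intro x hx
          rw [mem_union] at hx ⊢
          rcases hx with hx | hx
          · exact Or.inl hx
          · by_cases h2 : x ∈ PP R N z b1
            · exact Or.inl h2
            · exact Or.inr (hno x hx h2)
        · have := hs (mem_union_right _ he)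
          rw [mem_union] at this
          tauto
      omega
    obtain ⟨e1, h11, h12, h13⟩ := p1
    obtain ⟨e2, h21, h22, h23⟩ := p2
    have hlt : ∀ {e b}, e ∈ PP R N z b → e < N ∧ ¬ R (z e) b := by
      intro e b h
      simpa [PP] using h
    have hin : ∀ {e b}, e < N → e ∉ PP R N z b → R (z e) b := by
      intro e b h h'
      by_contra h''
      exact h' (by simp [PP, h, h''])
    exact hc.1.hex (z e1) (z e2) (z e) b1 b2 b3 (hlt h11).2 (hin (hlt h11).1 h12)
      (hin (hlt h11).1 h13) (hin (hlt h21).1 h22) (hlt h21).2 (hin (hlt h21).1 h23)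
      (hin (hlt he).1 hn.1) (hin (hlt he).1 hn.2) (hlt he).2

lemma exists_notin {U : Finset ℕ} {m : ℕ} (hU : U.card ≤ 2 * m) (s : ℕ) :
    ∃ i, s ≤ i ∧ i ≤ s + 2 * m ∧ i ∉ U := by
  by_contra hn
  push Not at hn
  have : (Finset.Icc s (s + 2 * m)) ⊆ U := fun i hi => by
    rw [mem_Icc] at hi
    exact hn i hi.1 hi.2
  have := card_le_card this
  rw [Nat.card_Icc] at this
  omega

theorem str (k : ℕ) (hk : 1 ≤ k) : ∃ N, ∀ (L : Type) [Fintype L] (R : L → L → Prop) (W : L → Prop),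
    TriG k R W → Half R N → ∃ (CA CB : Finset L) (κ : L → ℕ), Mrg R W CA CB κ := by
  refine ⟨10 * k + 3, ?_⟩
  intro L _ R W hT ⟨z, y, hH⟩
  set N := 10 * k + 3 with hN
  have hc : Cls k R := by
    have := hT.cls ∅ (by simp)
    rwa [res_empty] at this
  obtain ⟨U1, hU1, hU1'⟩ := exists_U hk hc hH
  have hcf : Cls k (fun a b => R b a) := ⟨hc.2, hc.1⟩
  have hHf : ∀ i j, i < N → j < N →
      ((fun a b => R b a) ((fun i => y (N - 1 - i)) i) ((fun j => z (N - 1 - j)) j) ↔ j ≤ i) := by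
    intro i j hi hj
    exact (hH (N - 1 - j) (N - 1 - i) (by omega) (by omega)).trans (by omega)
  obtain ⟨U2, hU2, hU2'⟩ := exists_U hk hcf hHf
  -- consequences
  have c1 : ∀ q b i, q ∉ U1 → q < N → ¬ R (z q) b → i ≤ q → ¬ R (z i) b := by
    intro q b i hq hqN hqb hi hib
    rcases Nat.lt_or_ge i q with h | h
    · exact hq (hU1' b ⟨i, q, h, hqN, hib, hqb⟩ (by simp [PP, hqN, hqb]))
    · have : i = q := by omega
      exact hqb (this ▸ hib)
  have c2 : ∀ o a j, N - 1 - o ∉ U2 → o < N → ¬ R a (y o) → o ≤ j → j < N → ¬ R a (y j) := by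
    intro o a j ho hoN hoa hj hjN hja
    rcases Nat.lt_or_ge o j with h | h
    · refine ho (hU2' a ⟨N - 1 - j, N - 1 - o, by omega, by omega, ?_, ?_⟩ ?_)
      · have : N - 1 - (N - 1 - j) = j := by omega
        simp only [this]; exact hja
      · have : N - 1 - (N - 1 - o) = o := by omega
        simp only [this]; exact hoa
      · have : N - 1 - (N - 1 - o) = o := by omega
        simp only [PP, mem_filter, mem_range, this]
        exact ⟨by omega, hoa⟩
    · have : j = o := by omega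
      exact hoa (this ▸ hja)
  -- indices
  obtain ⟨o', ho1, ho2, ho3⟩ := exists_notin hU2 (N - 1 - 2 * k)
  obtain ⟨p, hp1, hp2, hp3⟩ := exists_notin hU1 (3 * k)
  obtain ⟨q, hq1, hq2, hq3⟩ := exists_notin hU1 (5 * k + 2)
  obtain ⟨r, hr1, hr2, hr3⟩ := exists_notin hU1 (8 * k + 2)
  set o := N - 1 - o' with ho
  have ho3' : N - 1 - o ∉ U2 := by
    have : N - 1 - o = o' := by omega
    rwa [this]
  set CB : Finset L := univ.filter fun b => R (z q) b ∧ ¬ R (z p) b with hCB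
  set CA : Finset L := univ.filter fun a => (∀ b, R a b → R (z q) b) ∧ ∃ b ∈ CB, R a b with hCA
  have memB : ∀ b, b ∈ CB ↔ R (z q) b ∧ ¬ R (z p) b := fun b => by simp [hCB]
  have memA : ∀ a, a ∈ CA ↔ (∀ b, R a b → R (z q) b) ∧ ∃ b ∈ CB, R a b := fun a => by
    rw [hCA, mem_filter]; simp
  have hz : ∀ i, p < i → i ≤ q → z i ∈ CA := by
    intro i hi hi'
    rw [memA]
    refine ⟨fun b hb => ?_, y i, ?_, (hH i i (by omega) (by omega)).2 le_rfl⟩
    · by_contra hn
      exact c1 q b i hq3 (by omega) hn hi' hb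
    · rw [memB]
      refine ⟨(hH q i (by omega) (by omega)).2 hi', fun h => ?_⟩
      have := (hH p i (by omega) (by omega)).1 h
      omega
  have hy : ∀ i, p < i → i ≤ q → y i ∈ CB := by
    intro i hi hi'
    rw [memB]
    refine ⟨(hH q i (by omega) (by omega)).2 hi', fun h => ?_⟩
    have := (hH p i (by omega) (by omega)).1 h
    omega
  have hctx : Ctx k R W CA CB (z p) (z q) (z r) (y o) ((Finset.Ioc q r).image y)
      ((Finset.Icc o p).image z) := by
    refine ⟨hT, ?_, ?_, ?_, ?_, ?_, ?_, ?_, ?_, ?_, ?_, ?_, memB, memA, ?_, ?_⟩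
    · intro b hb
      by_contra hn
      exact c1 q b p hq3 (by omega) hn (by omega) hb
    · intro b hb
      by_contra hn
      exact c1 r b q hr3 (by omega) hn (by omega) hb
    · rw [card_image_of_injOn, Nat.card_Ioc]
      · omega
      · intro a ha c hc' h
        simp only [coe_Ioc, Set.mem_Ioc] at ha hc'
        exact y_inj hH (by omega) (by omega) h
    · intro x hx
      rw [mem_image] at hx
      obtain ⟨j, hj, rfl⟩ := hx
      rw [mem_Ioc] at hj
      exact (hH r j (by omega) (by omega)).2 hj.2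
    · intro x hx h
      rw [mem_image] at hx
      obtain ⟨j, hj, rfl⟩ := hx
      rw [mem_Ioc] at hj
      have := (hH q j (by omega) (by omega)).1 h
      omega
    · rw [card_image_of_injOn, Nat.card_Icc]
      · omega
      · intro a ha c hc' h
        simp only [coe_Icc, Set.mem_Icc] at ha hc'
        exact z_inj hH (by omega) (by omega) h
    · intro x hx
      rw [mem_image] at hx
      obtain ⟨j, hj, rfl⟩ := hx
      rw [mem_Icc] at hj
      exact (hH j o (by omega) (by omega)).2 hj.1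
    · intro b hb x hx
      rw [mem_image] at hx
      obtain ⟨j, hj, rfl⟩ := hx
      rw [mem_Icc] at hj
      exact c1 p b j hp3 (by omega) hb hj.2
    · exact (hH p o (by omega) (by omega)).2 (by omega)
    · intro a ha x hx
      rw [mem_image] at hx
      obtain ⟨j, hj, rfl⟩ := hx
      rw [mem_Ioc] at hj
      exact c2 o a j ho3' (by omega) ha (by omega) (by omega)
    · refine ⟨y r, (hH r r (by omega) (by omega)).2 le_rfl, fun h => ?_⟩
      have := (hH q r (by omega) (by omega)).1 h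
      omega
    · refine ⟨z (p + 1), z (p + 2), y (p + 1), y (p + 2), hz _ (by omega) (by omega),
        hz _ (by omega) (by omega), hy _ (by omega) (by omega), hy _ (by omega) (by omega),
        (hH _ _ (by omega) (by omega)).2 le_rfl, fun h => ?_, fun h => ?_⟩
      · have := (hH (p + 1) (p + 2) (by omega) (by omega)).1 h
        omega
      · have := z_inj hH (by omega) (by omega) h
        omega
    · exact hz q (by omega) le_rfl
  exact ⟨CA, CB, _, hctx.mrg⟩

end Pool.Agent.H73R2.Et
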