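import Pool.Agent.H73R2.Et.Defs

set_option autoImplicit false

namespace Pool.Agent.H73R2.Et

open Finset Classical Pool.Agent.H175R2 Pool.Agent.H73R2.Iv

variable {V : Type} [Fintype V]

/-- `side` is a proper 2-colouring -/
def Side (G : SimpleGraph V) (side : V → Bool) : Prop := ∀ a b, G.Adj a b → side a ≠ side b

/-- A partition of the vertices into units (the fibres of `f`): each unit is a bimodule, has a
decomposition tree, and if it has vertices on both sides it contains an edge and a non-edge
between its two sides. -/
structure Units (G : SimpleGraph V) (side : V → Bool) (K : ℕ) (f : V → V) : Prop where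
  bim : ∀ x a a', f x ≠ f a → f a = f a' → side a = side a' → (G.Adj x a ↔ G.Adj x a')
  dt : ∀ u, DT0 G K (univ.filter fun v => f v = u)
  edge : ∀ a b, f a = f b → side a = true → side b = false →
    ∃ a' b', f a' = f a ∧ f b' = f a ∧ side a' = true ∧ side b' = false ∧ G.Adj a' b'
  nonedge : ∀ a b, f a = f b → side a = true → side b = false →
    ∃ a' b', f a' = f a ∧ f b' = f a ∧ side a' = true ∧ side b' = false ∧ ¬ G.Adj a' b'

/-- quotient relation on labels -/
def RR (G : SimpleGraph V) (side : V → Bool) (f : V → V) : V → V → Prop := fun u v =>
  ∃ a b, f a = u ∧ f b = v ∧ side a = true ∧ side b = false ∧ G.Adj a b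

/-- wild labels: units with vertices on both sides -/
def WW (side : V → Bool) (f : V → V) : V → Prop := fun u =>
  ∃ a b, f a = u ∧ f b = u ∧ side a = true ∧ side b = false

end Pool.Agent.H73R2.Et
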